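import Pool.Agent.W945.Rk.Rounds

/-! # The spaces spanned by the entries of partial products -/

namespace Pool.Agent.W945.Rk
open MvPolynomial

noncomputable section
open scoped Classical

variable {ι : Type} {K : Type} [Field K] {w : ℕ}

/-- The ordered product of the matrices at the positions `p < L` in `A`. -/
def Pr (L : ℕ) (Mt : ℕ → Matrix (Fin w) (Fin w) (MvPolynomial ι K)) (A : Set ℕ) :
    Matrix (Fin w) (Fin w) (MvPolynomial ι K) :=
  ((List.range L).map fun p => if p ∈ A then Mt p else 1).prod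

variable {L : ℕ} {Mt : ℕ → Matrix (Fin w) (Fin w) (MvPolynomial ι K)}

theorem Pr_succ (L : ℕ) (A : Set ℕ) :
    Pr (L + 1) Mt A = Pr L Mt A * (if L ∈ A then Mt L else 1) := by
  simp [Pr, List.range_succ]

theorem Pr_congr {A B : Set ℕ} (h : ∀ p < L, p ∈ A ↔ p ∈ B) : Pr L Mt A = Pr L Mt B := by
  unfold Pr
  congr 1
  apply List.map_congr_left
  intro p hp
  rw [List.mem_range] at hp
  simp [h p hp]

theorem Pr_empty {A : Set ℕ} (h : ∀ p < L, p ∉ A) : Pr L Mt A = 1 := by
  induction L with
  | zero => simp [Pr]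
  | succ L ih =>
    rw [Pr_succ, ih fun p hp => h p (by omega), if_neg (h L (by omega)), mul_one]

theorem Pr_split {A Z : Set ℕ} (hZ : ∀ p q, p ≤ q → q ∈ Z → p ∈ Z) :
    Pr L Mt A = Pr L Mt (A ∩ Z) * Pr L Mt (A ∩ Zᶜ) := by
  induction L with
  | zero => simp [Pr]
  | succ L ih =>
    by_cases hL : L ∈ Z
    · rw [Pr_empty (A := A ∩ Zᶜ) (L := L + 1), mul_one]
      · apply Pr_congr
        intro p hp
        simp [hZ p L (by omega) hL]
      · intro p hp h
        exact h.2 (hZ p L (by omega) hL)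
    · rw [Pr_succ, Pr_succ, Pr_succ, ih]
      simp [hL, mul_assoc]

/-- The span of the entries. -/
def En (L : ℕ) (Mt : ℕ → Matrix (Fin w) (Fin w) (MvPolynomial ι K)) (A : Set ℕ) :
    Submodule K (MvPolynomial ι K) :=
  Submodule.span K (Set.range fun x : Fin w × Fin w => Pr L Mt A x.1 x.2)

theorem entry_mem_En (A : Set ℕ) (i j : Fin w) : Pr L Mt A i j ∈ En L Mt A :=
  Submodule.subset_span ⟨(i, j), rfl⟩

theorem En_le {A : Set ℕ} {S : Submodule K (MvPolynomial ι K)}
    (h : ∀ i j, Pr L Mt A i j ∈ S) : En L Mt A ≤ S := by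
  rw [En, Submodule.span_le]
  rintro _ ⟨x, rfl⟩
  exact h _ _

theorem En_congr {A B : Set ℕ} (h : ∀ p < L, p ∈ A ↔ p ∈ B) : En L Mt A = En L Mt B := by
  rw [En, En, Pr_congr h]

theorem En_empty [NeZero w] {A : Set ℕ} (h : ∀ p < L, p ∉ A) : En L Mt A = 1 := by
  apply le_antisymm
  · apply En_le
    intro i j
    rw [Pr_empty h, Matrix.one_apply]
    split_ifs
    · exact Submodule.one_le.1 le_rfl
    · exact Submodule.zero_mem _
  · rw [Submodule.one_le]
    have := entry_mem_En (L := L) (Mt := Mt) A 0 0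
    rwa [Pr_empty h, Matrix.one_apply_eq] at this

theorem En_split {A Z : Set ℕ} (hZ : ∀ p q, p ≤ q → q ∈ Z → p ∈ Z) :
    En L Mt A ≤ En L Mt (A ∩ Z) * En L Mt (A ∩ Zᶜ) := by
  apply En_le
  intro i j
  rw [Pr_split hZ, Matrix.mul_apply]
  exact Submodule.sum_mem _ fun k _ => Submodule.mul_mem_mul (entry_mem_En _ _ _) (entry_mem_En _ _ _)

theorem En_grade {g : ℕ → ℕ} (hg : Monotone g) (N : ℕ) : ∀ A : Set ℕ, (∀ p ∈ A, g p ≤ N) →
    En L Mt A ≤ ∏ i ∈ Finset.range (N + 1), En L Mt (A ∩ {p | g p = i}) := by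
  induction N with
  | zero =>
    intro A hA
    simp only [zero_add, Finset.range_one, Finset.prod_singleton]
    refine le_of_eq (En_congr fun p _ => ?_)
    constructor
    · intro h; exact ⟨h, Nat.le_zero.1 (hA p h)⟩
    · intro h; exact h.1
  | succ N ih =>
    intro A hA
    rw [Finset.prod_range_succ]
    refine (En_split (Z := {p | g p ≤ N}) fun p q hpq hq => (hg hpq).trans hq).trans ?_
    apply mul_le_mul'
    · refine (ih (A ∩ {p | g p ≤ N}) fun p hp => hp.2).trans (le_of_eq ?_)
      refine Finset.prod_congr rfl fun i hi => En_congr fun p _ => ?_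
      have := Finset.mem_range.1 hi
      simp only [Set.mem_inter_iff, Set.mem_setOf_eq]
      constructor
      · rintro ⟨⟨h1, _⟩, h2⟩; exact ⟨h1, h2⟩
      · rintro ⟨h1, h2⟩; exact ⟨⟨h1, by omega⟩, h2⟩
    · refine le_of_eq (En_congr fun p _ => ?_)
      simp only [Set.mem_inter_iff, Set.mem_setOf_eq, Set.mem_compl_iff]
      constructor
      · rintro ⟨h1, h2⟩; exact ⟨h1, le_antisymm (hA p h1) (by omega)⟩
      · rintro ⟨h1, h2⟩; exact ⟨h1, by omega⟩

theorem En_const [NeZero w] {γ : Type} (s : Finset γ) (h : ℕ → γ) {A : Set ℕ}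
    (hc : ∀ p ∈ A, ∀ q ∈ A, h p = h q) (hs : ∀ p ∈ A, h p ∈ s) :
    ∏ x ∈ s, En L Mt (A ∩ {p | h p = x}) = En L Mt A := by
  by_cases hA : A = ∅
  · subst hA
    rw [En_empty (by simp), Finset.prod_eq_one]
    intro x _
    apply En_empty
    simp
  · obtain ⟨p, hp⟩ := Set.nonempty_iff_ne_empty.2 hA
    rw [Finset.prod_eq_single (h p)]
    · apply En_congr
      intro q _
      constructor
      · intro h1; exact h1.1
      · intro h1; exact ⟨h1, hc q h1 p hp⟩
    · intro x _ hx
      apply En_empty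
      rintro q _ ⟨h1, h2⟩
      exact hx (h2.symm.trans (hc q h1 p hp))
    · intro h1
      exact absurd (hs p hp) h1

/-- The space of a node. -/
def Sp (L : ℕ) (Mt : ℕ → Matrix (Fin w) (Fin w) (MvPolynomial ι K)) (g : ℕ → ℕ) (A : Set ℕ)
    (N : ℕ) : Submodule K (MvPolynomial ι K) :=
  ∏ i ∈ Finset.range (N + 1), En L Mt (A ∩ {p | g p = i})

theorem prod_le_prod {γ : Type} (s : Finset γ) {F G : γ → Submodule K (MvPolynomial ι K)}
    (h : ∀ x ∈ s, F x ≤ G x) : ∏ x ∈ s, F x ≤ ∏ x ∈ s, G x := by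
  induction s using Finset.induction_on with
  | empty => simp
  | insert a s ha ih =>
    rw [Finset.prod_insert ha, Finset.prod_insert ha]
    exact mul_le_mul' (h a (Finset.mem_insert_self _ _))
      (ih fun x hx => h x (Finset.mem_insert_of_mem hx))

/-- **Refining and regrouping.** -/
theorem Sp_regroup [NeZero w] {g lab : ℕ → ℕ} (hg : Monotone g) (hl : Monotone lab) {N N' : ℕ}
    (hN : ∀ p, g p ≤ N) (hN' : ∀ p, lab p ≤ N') {r : ℕ} (col : ℕ → Fin r) (A : Set ℕ) :
    Sp L Mt g A N ≤ ∏ c : Fin r, Sp L Mt (fun p => g p + lab p) (A ∩ {p | col (lab p) = c})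
      (N + N') := by
  have hmono : Monotone fun p => g p + lab p := fun p q h => Nat.add_le_add (hg h) (hl h)
  have hconst : ∀ p q, g p + lab p = g q + lab q → g p = g q ∧ lab p = lab q := by
    intro p q h
    rcases le_total p q with h1 | h1
    · have := hg h1; have := hl h1; omega
    · have := hg h1; have := hl h1; omega
  unfold Sp
  calc ∏ i ∈ Finset.range (N + 1), En L Mt (A ∩ {p | g p = i})
      ≤ ∏ i ∈ Finset.range (N + 1), ∏ j ∈ Finset.range (N + N' + 1),
        En L Mt (A ∩ {p | g p = i} ∩ {p | g p + lab p = j}) :=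
        prod_le_prod _ fun i _ => En_grade hmono _ _ fun p _ => Nat.add_le_add (hN p) (hN' p)
    _ = ∏ j ∈ Finset.range (N + N' + 1), ∏ i ∈ Finset.range (N + 1),
        En L Mt (A ∩ {p | g p + lab p = j} ∩ {p | g p = i}) := by
        rw [Finset.prod_comm]
        refine Finset.prod_congr rfl fun j _ => Finset.prod_congr rfl fun i _ => ?_
        rw [Set.inter_right_comm]
    _ = ∏ j ∈ Finset.range (N + N' + 1), En L Mt (A ∩ {p | g p + lab p = j}) := by
        refine Finset.prod_congr rfl fun j _ => ?_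
        apply En_const (h := g)
        · intro p hp q hq
          exact (hconst p q (hp.2.trans hq.2.symm)).1
        · intro p _
          exact Finset.mem_range.2 (Nat.lt_succ_of_le (hN p))
    _ = ∏ j ∈ Finset.range (N + N' + 1), ∏ c : Fin r,
        En L Mt (A ∩ {p | g p + lab p = j} ∩ {p | col (lab p) = c}) := by
        refine Finset.prod_congr rfl fun j _ => ?_
        symm
        apply En_const (h := fun p => col (lab p))
        · intro p hp q hq
          rw [(hconst p q (hp.2.trans hq.2.symm)).2]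
        · intro p _
          exact Finset.mem_univ _
    _ = ∏ c : Fin r, ∏ i ∈ Finset.range (N + N' + 1),
        En L Mt (A ∩ {p | col (lab p) = c} ∩ {p | g p + lab p = i}) := by
        rw [Finset.prod_comm]
        refine Finset.prod_congr rfl fun j _ => Finset.prod_congr rfl fun i _ => ?_
        rw [Set.inter_right_comm]

/-! ## Base change -/

theorem Pr_bc (V : Set ι) {F : Type} [Field F] (j : K →+* F) (y : ι → F) (A : Set ℕ) :
    Pr L (fun p => (Mt p).map (bc V j y)) A = (Pr L Mt A).map (bc V j y) := by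
  induction L with
  | zero =>
    simp only [Pr, List.range_zero, List.map_nil, List.prod_nil]
    ext1 a b
    by_cases h : a = b <;> simp [h, Matrix.one_apply]
  | succ L ih =>
    rw [Pr_succ, Pr_succ, ih]
    have h2 : ∀ A B : Matrix (Fin w) (Fin w) (MvPolynomial ι K),
        (A * B).map (bc V j y) = A.map (bc V j y) * B.map (bc V j y) := fun A B =>
      Matrix.map_mul
    rw [h2]
    congr 1
    split_ifs
    · rfl
    · ext1 a b
      by_cases h : a = b <;> simp [h, Matrix.one_apply]

theorem En_bc (V : Set ι) {F : Type} [Field F] (j : K →+* F) (y : ι → F) {A : Set ℕ}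
    {f : MvPolynomial ι K} (hf : f ∈ En L Mt A) :
    bc V j y f ∈ En L (fun p => (Mt p).map (bc V j y)) A := by
  rw [En] at hf
  induction hf using Submodule.span_induction with
  | mem x hx =>
    obtain ⟨⟨a, b⟩, rfl⟩ := hx
    have := entry_mem_En (L := L) (Mt := fun p => (Mt p).map (bc V j y)) A a b
    rwa [Pr_bc] at this
  | zero => rw [map_zero]; exact Submodule.zero_mem _
  | add x z _ _ hx hz => rw [map_add]; exact Submodule.add_mem _ hx hz
  | smul c x _ hx =>
    have : bc V j y (c • x) = j c • bc V j y x := by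
      rw [MvPolynomial.smul_eq_C_mul, MvPolynomial.smul_eq_C_mul, map_mul]
      congr 1
      simp [bc]
    rw [this]
    exact Submodule.smul_mem _ _ hx

theorem prod_bc (V : Set ι) {F : Type} [Field F] (j : K →+* F) (y : ι → F) {γ : Type}
    (s : Finset γ) {S : γ → Submodule K (MvPolynomial ι K)} {S' : γ → Submodule F (MvPolynomial ι F)}
    (h : ∀ x ∈ s, ∀ f ∈ S x, bc V j y f ∈ S' x) :
    ∀ f ∈ ∏ x ∈ s, S x, bc V j y f ∈ ∏ x ∈ s, S' x := by
  induction s using Finset.induction_on with
  | empty =>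
    intro f hf
    rw [Finset.prod_empty] at hf ⊢
    rw [Submodule.mem_one] at hf
    obtain ⟨c, rfl⟩ := hf
    rw [Submodule.mem_one]
    refine ⟨j c, ?_⟩
    simp [bc, MvPolynomial.algebraMap_eq]
  | insert a s ha ih =>
    intro f hf
    rw [Finset.prod_insert ha] at hf ⊢
    induction hf using Submodule.mul_induction_on' with
    | mem_mul_mem g hg g' hg' =>
      rw [map_mul]
      exact Submodule.mul_mem_mul (h a (Finset.mem_insert_self _ _) g hg)
        (ih (fun x hx => h x (Finset.mem_insert_of_mem hx)) g' hg')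
    | add x _ z _ hx hz => rw [map_add]; exact Submodule.add_mem _ hx hz

theorem Sp_bc (V : Set ι) {F : Type} [Field F] (j : K →+* F) (y : ι → F) {g : ℕ → ℕ} {A : Set ℕ}
    {N : ℕ} {f : MvPolynomial ι K} (hf : f ∈ Sp L Mt g A N) :
    bc V j y f ∈ Sp L (fun p => (Mt p).map (bc V j y)) g A N :=
  prod_bc V j y _ (fun _ _ _ hx => En_bc V j y hx) f hf

end

end Pool.Agent.W945.Rk
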