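import Pool.Agent.W945.Rk.Alg

/-! # Supports, degrees, dimensions, leading exponents -/

namespace Pool.Agent.W945.Rk
open MvPolynomial

noncomputable section
open scoped Classical

variable {ι : Type} {K : Type} [Field K] {w : ℕ}
variable {L : ℕ} {Mt : ℕ → Matrix (Fin w) (Fin w) (MvPolynomial ι K)}

/-! ## Support -/

theorem Pr_mem_Sup {V : Set ι} {A : Set ℕ} (h : ∀ p < L, p ∈ A → ∀ i j, Mt p i j ∈ Sup K V)
    (i j : Fin w) : Pr L Mt A i j ∈ Sup K V := by
  induction L generalizing j with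
  | zero =>
    simp only [Pr, List.range_zero, List.map_nil, List.prod_nil, Matrix.one_apply]
    split_ifs
    · exact (supported K V).one_mem
    · exact Submodule.zero_mem _
  | succ L ih =>
    rw [Pr_succ, Matrix.mul_apply]
    refine Submodule.sum_mem _ fun k _ => ?_
    refine (supported K V).mul_mem (ih (fun p hp => h p (by omega)) k) ?_
    split_ifs with h1
    · exact h L (by omega) h1 k j
    · rw [Matrix.one_apply]
      split_ifs
      · exact (supported K V).one_mem
      · exact (supported K V).zero_mem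

theorem prod_le_Sup {γ : Type} (s : Finset γ) {S : γ → Submodule K (MvPolynomial ι K)} {V : Set ι}
    (h : ∀ x ∈ s, S x ≤ Sup K V) : ∏ x ∈ s, S x ≤ Sup K V := by
  induction s using Finset.induction_on with
  | empty =>
    rw [Finset.prod_empty, Submodule.one_le]
    exact (supported K V).one_mem
  | insert a s ha ih =>
    rw [Finset.prod_insert ha]
    exact Sup_mul (h a (Finset.mem_insert_self _ _))
      (ih fun x hx => h x (Finset.mem_insert_of_mem hx))

theorem Sp_le_Sup {V : Set ι} {A : Set ℕ} {g : ℕ → ℕ} {N : ℕ}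
    (h : ∀ p < L, p ∈ A → ∀ i j, Mt p i j ∈ Sup K V) : Sp L Mt g A N ≤ Sup K V :=
  prod_le_Sup _ fun _ _ => En_le fun i j => Pr_mem_Sup (fun p hp hpA => h p hp hpA.1) i j

/-! ## Degree -/

theorem Pr_deg {d : ℕ} {A : Set ℕ} (h : ∀ p < L, ∀ i j, (Mt p i j).totalDegree ≤ d)
    (i j : Fin w) : (Pr L Mt A i j).totalDegree ≤ d * L := by
  induction L generalizing j with
  | zero =>
    simp only [Pr, List.range_zero, List.map_nil, List.prod_nil, Matrix.one_apply]
    split_ifs <;> simp
  | succ L ih =>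
    rw [Pr_succ, Matrix.mul_apply]
    refine (totalDegree_finsetSum _ _).trans (Finset.sup_le fun k _ => ?_)
    refine (totalDegree_mul _ _).trans ?_
    rw [Nat.mul_succ]
    refine Nat.add_le_add (ih (fun p hp => h p (by omega)) k) ?_
    split_ifs with h1
    · exact h L (by omega) k j
    · rw [Matrix.one_apply]
      split_ifs <;> simp

theorem mul_deg {a b : ℕ} {S T : Submodule K (MvPolynomial ι K)}
    (hS : ∀ f ∈ S, f.totalDegree ≤ a) (hT : ∀ f ∈ T, f.totalDegree ≤ b) :
    ∀ f ∈ S * T, f.totalDegree ≤ a + b := by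
  intro f hf
  induction hf using Submodule.mul_induction_on' with
  | mem_mul_mem g hg g' hg' =>
    exact (totalDegree_mul _ _).trans (Nat.add_le_add (hS g hg) (hT g' hg'))
  | add x _ z _ hx hz => exact (totalDegree_add _ _).trans (max_le hx hz)

theorem prod_deg {γ : Type} (s : Finset γ) {S : γ → Submodule K (MvPolynomial ι K)} {a : ℕ}
    (h : ∀ x ∈ s, ∀ f ∈ S x, f.totalDegree ≤ a) :
    ∀ f ∈ ∏ x ∈ s, S x, f.totalDegree ≤ s.card * a := by
  induction s using Finset.induction_on with
  | empty =>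
    intro f hf
    rw [Finset.prod_empty, Submodule.mem_one] at hf
    obtain ⟨c, rfl⟩ := hf
    simp [MvPolynomial.algebraMap_eq]
  | insert b s hb ih =>
    rw [Finset.prod_insert hb, Finset.card_insert_of_notMem hb, Nat.succ_mul, Nat.add_comm]
    exact mul_deg (h b (Finset.mem_insert_self _ _))
      (ih fun x hx => h x (Finset.mem_insert_of_mem hx))

theorem En_deg {d : ℕ} {A : Set ℕ} (h : ∀ p < L, ∀ i j, (Mt p i j).totalDegree ≤ d) :
    ∀ f ∈ En L Mt A, f.totalDegree ≤ d * L := by
  intro f hf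
  rw [En] at hf
  induction hf using Submodule.span_induction with
  | mem x hx => obtain ⟨y, rfl⟩ := hx; exact Pr_deg h _ _
  | zero => simp
  | add x z _ _ hx hz => exact (totalDegree_add _ _).trans (max_le hx hz)
  | smul c x _ hx => exact (totalDegree_smul_le _ _).trans hx

theorem Sp_deg {d : ℕ} {A : Set ℕ} {g : ℕ → ℕ} {N : ℕ}
    (h : ∀ p < L, ∀ i j, (Mt p i j).totalDegree ≤ d) :
    ∀ f ∈ Sp L Mt g A N, f.totalDegree ≤ (N + 1) * (d * L) := by
  have := prod_deg (Finset.range (N + 1)) (S := fun i => En L Mt (A ∩ {p | g p = i}))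
    (a := d * L) (fun x _ => En_deg h)
  simpa [Sp] using this

/-! ## Dimension -/

/-- `S` is spanned by at most `D` elements. -/
def Small (D : ℕ) (S : Submodule K (MvPolynomial ι K)) : Prop :=
  ∃ T : Finset (MvPolynomial ι K), T.card ≤ D ∧ S ≤ Submodule.span K (T : Set (MvPolynomial ι K))

theorem Small.mul {D E : ℕ} {S T : Submodule K (MvPolynomial ι K)} (hS : Small D S)
    (hT : Small E T) : Small (D * E) (S * T) := by
  obtain ⟨A, hA, hA'⟩ := hS
  obtain ⟨B, hB, hB'⟩ := hT
  refine ⟨(A ×ˢ B).image fun x => x.1 * x.2, ?_, ?_⟩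
  · refine Finset.card_image_le.trans ?_
    rw [Finset.card_product]
    exact Nat.mul_le_mul hA hB
  · refine (mul_le_mul' hA' hB').trans ?_
    rw [Submodule.span_mul_span]
    apply Submodule.span_mono
    rintro _ ⟨a, ha, b, hb, rfl⟩
    simp only [Finset.coe_image, Set.mem_image, Finset.mem_coe, Finset.mem_product]
    exact ⟨(a, b), ⟨ha, hb⟩, rfl⟩

theorem Small.one : Small 1 (1 : Submodule K (MvPolynomial ι K)) :=
  ⟨{1}, by simp, by simp [Submodule.one_eq_span]⟩

theorem Small.mono {D E : ℕ} {S T : Submodule K (MvPolynomial ι K)} (hS : Small D S) (h : D ≤ E)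
    (h' : T ≤ S) : Small E T := by
  obtain ⟨A, hA, hA'⟩ := hS
  exact ⟨A, hA.trans h, h'.trans hA'⟩

theorem Small.prod {γ : Type} (s : Finset γ) {S : γ → Submodule K (MvPolynomial ι K)} {D : ℕ}
    (h : ∀ x ∈ s, Small D (S x)) : Small (D ^ s.card) (∏ x ∈ s, S x) := by
  induction s using Finset.induction_on with
  | empty => simpa using Small.one
  | insert b s hb ih =>
    rw [Finset.prod_insert hb, Finset.card_insert_of_notMem hb, pow_succ, mul_comm (D ^ _)]
    exact (h b (Finset.mem_insert_self _ _)).mul (ih fun x hx => h x (Finset.mem_insert_of_mem hx))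

theorem Small.En (A : Set ℕ) : Small (w * w) (En L Mt A) := by
  refine ⟨Finset.univ.image fun x : Fin w × Fin w => Pr L Mt A x.1 x.2, ?_, ?_⟩
  · refine Finset.card_image_le.trans ?_
    simp
  · rw [Rk.En]
    apply Submodule.span_mono
    simp

theorem Small.Sp (g : ℕ → ℕ) (A : Set ℕ) (N : ℕ) : Small ((w * w) ^ (N + 1)) (Sp L Mt g A N) := by
  have := Small.prod (Finset.range (N + 1)) (S := fun i => Rk.En L Mt (A ∩ {p | g p = i}))
    (D := w * w) (fun x _ => Small.En _)
  simpa [Rk.Sp] using this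

/-! ## Leading exponents -/

theorem card_leads {D : ℕ} {S : Submodule K (MvPolynomial ι K)} (hS : Small D S)
    (e : ι → (ℕ →₀ ℕ)) (s : Finset (ℕ →₀ ℕ)) (hs : ∀ b ∈ s, ∃ g ∈ S, IsLd (Th K e g) b) :
    s.card ≤ D := by
  obtain ⟨A, hA, hA'⟩ := hS
  choose! G hGS hG using hs
  set v : s → MvPolynomial ℕ K := fun b => Th K e (G b) with hv
  have hli : LinearIndependent K v := by
    rw [Fintype.linearIndependent_iff]
    intro c hc
    by_contra hcon
    push Not at hcon
    obtain ⟨i0, hi0⟩ := hcon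
    obtain ⟨b, hb, hmin⟩ := Finset.exists_min_image (Finset.univ.filter fun i : s => c i ≠ 0)
      (fun i => toLex (i : ℕ →₀ ℕ)) ⟨i0, by simpa using hi0⟩
    simp only [Finset.mem_filter, Finset.mem_univ, true_and] at hb hmin
    have h2 := congrArg (coeff (b : ℕ →₀ ℕ)) hc
    rw [coeff_sum, coeff_zero, Finset.sum_eq_single b] at h2
    · rw [coeff_smul, smul_eq_mul] at h2
      rcases mul_eq_zero.1 h2 with h3 | h3
      · exact hb h3
      · exact (hG b b.2).1 h3
    · intro i _ hib
      rw [coeff_smul, smul_eq_mul]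
      by_cases hci : c i = 0
      · rw [hci, zero_mul]
      · have h3 := hmin i hci
        have h4 : coeff (b : ℕ →₀ ℕ) (v i) = 0 := by
          by_contra h5
          have h6 := (hG i i.2).2 b h5
          have h7 := le_antisymm h6 h3
          exact hib (Subtype.ext (toLex.injective h7))
        rw [h4, mul_zero]
    · intro h; exact absurd (Finset.mem_univ _) h
  have hspan : Set.range v ⊆ Submodule.span K ((A.image (Th K e) : Finset _) : Set (MvPolynomial ℕ K)) := by
    rintro _ ⟨b, rfl⟩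
    have h3 := Submodule.mem_map_of_mem (f := (Th K e).toLinearMap) (hA' (hGS b b.2))
    rw [Submodule.map_span] at h3
    simpa using h3
  have h4 := linearIndependent_le_span' v hli _ hspan
  rw [Cardinal.mk_fintype, Fintype.card_coe, Nat.cast_le] at h4
  refine h4.trans ?_
  simp only [Fintype.card_coe, Finset.coe_sort_coe]
  exact Finset.card_image_le.trans hA

theorem exists_leads {D : ℕ} {S : Submodule K (MvPolynomial ι K)} (hS : Small D S)
    (e : ι → (ℕ →₀ ℕ)) : ∃ B : Finset (ℕ →₀ ℕ), B.card ≤ D ∧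
      (∀ b ∈ B, ∃ g ∈ S, IsLd (Th K e g) b) ∧ ∀ g ∈ S, ∀ b, IsLd (Th K e g) b → b ∈ B := by
  have hfin : {b : ℕ →₀ ℕ | ∃ g ∈ S, IsLd (Th K e g) b}.Finite := by
    by_contra hinf
    obtain ⟨s, hs, hc⟩ := Set.Infinite.exists_subset_card_eq hinf (D + 1)
    have := card_leads hS e s fun b hb => hs hb
    omega
  refine ⟨hfin.toFinset, card_leads hS e _ fun b hb => by simpa using hb, fun b hb => by
    simpa using hb, fun g hg b hb => ?_⟩
  rw [Set.Finite.mem_toFinset]
  exact ⟨g, hg, hb⟩

/-! ## The exponents of the image -/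

theorem Th_monomial {τ : Type} (e : ι → (τ →₀ ℕ)) (d : ι →₀ ℕ) (c : K) :
    Th K e (monomial d c) = monomial (d.sum fun u k => k • e u) c := by
  rw [Th, aeval_monomial, Finsupp.prod]
  have : ∀ s : Finset ι, ∏ u ∈ s, (monomial (e u) (1 : K)) ^ d u =
      monomial (∑ u ∈ s, d u • e u) 1 := by
    intro s
    induction s using Finset.induction_on with
    | empty => simp
    | insert a s ha ih =>
      rw [Finset.prod_insert ha, Finset.sum_insert ha, ih, monomial_pow, one_pow, monomial_mul,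
        one_mul]
  rw [this, MvPolynomial.algebraMap_eq, C_mul_monomial, mul_one]
  rfl

theorem exists_of_coeff_Th {τ : Type} {e : ι → (τ →₀ ℕ)} {g : MvPolynomial ι K} {b : τ →₀ ℕ}
    (h : coeff b (Th K e g) ≠ 0) : ∃ d ∈ g.support, b = d.sum fun u k => k • e u := by
  by_contra hcon
  push Not at hcon
  apply h
  rw [g.as_sum, map_sum, coeff_sum]
  refine Finset.sum_eq_zero fun d hd => ?_
  rw [Th_monomial, coeff_monomial, if_neg]
  exact fun h2 => hcon d hd h2.symm

theorem lead_bound {τ : Type} {e : ι → (τ →₀ ℕ)} {g : MvPolynomial ι K} {b : τ →₀ ℕ}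
    (h : coeff b (Th K e g) ≠ 0) {D X : ℕ} (hg : g.totalDegree ≤ D) (i : τ)
    (he : ∀ u, e u i ≤ X) : b i ≤ D * X := by
  obtain ⟨d, hd, rfl⟩ := exists_of_coeff_Th h
  have h1 : (d.sum fun _ k => k) ≤ D := (le_totalDegree hd).trans hg
  rw [Finsupp.sum, Finsupp.finsetSum_apply]
  refine le_trans ?_ (Nat.mul_le_mul_right X h1)
  rw [Finsupp.sum, Finset.sum_mul]
  refine Finset.sum_le_sum fun u _ => ?_
  simp only [Finsupp.smul_apply, smul_eq_mul]
  exact Nat.mul_le_mul_left _ (he u)

/-! ## Separation -/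

/-- the tie-breaking functional -/
def lamF (p T κ : ℕ) : (ℕ →₀ ℕ) →+ ZMod p where
  toFun a := ∑ i ∈ Finset.range T, (κ : ZMod p) ^ i * (a i : ZMod p)
  map_zero' := by simp
  map_add' a b := by
    rw [← Finset.sum_add_distrib]
    refine Finset.sum_congr rfl fun i _ => ?_
    simp [mul_add]

theorem exists_sep {p T : ℕ} (hp : p.Prime) (Q : Finset ((ℕ →₀ ℕ) × (ℕ →₀ ℕ)))
    (hQ : Q.card * T < p) (hne : ∀ x ∈ Q, x.1 ≠ x.2)
    (hT : ∀ x ∈ Q, ∀ i, T ≤ i → x.1 i = 0 ∧ x.2 i = 0)
    (hX : ∀ x ∈ Q, ∀ i, x.1 i < p ∧ x.2 i < p) :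
    ∃ κ < p, ∀ x ∈ Q, lamF p T κ x.1 ≠ lamF p T κ x.2 := by
  have : Fact p.Prime := ⟨hp⟩
  set q : (ℕ →₀ ℕ) × (ℕ →₀ ℕ) → Polynomial (ZMod p) := fun x =>
    ∑ i ∈ Finset.range T, Polynomial.C ((x.1 i : ZMod p) - (x.2 i : ZMod p)) * Polynomial.X ^ i with hq
  have hq0 : ∀ x ∈ Q, q x ≠ 0 := by
    intro x hx h0
    apply hne x hx
    ext i
    by_cases hi : i < T
    · have h1 := congrArg (fun r => Polynomial.coeff r i) h0
      simp only [hq, Polynomial.finsetSum_coeff, Polynomial.coeff_C_mul, Polynomial.coeff_X_pow,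
        Polynomial.coeff_zero] at h1
      rw [Finset.sum_eq_single i] at h1
      · simp only [if_true, mul_one] at h1
        have h2 := sub_eq_zero.1 h1
        rw [ZMod.natCast_eq_natCast_iff'] at h2
        rwa [Nat.mod_eq_of_lt (hX x hx i).1, Nat.mod_eq_of_lt (hX x hx i).2] at h2
      · intro j _ hj
        rw [if_neg hj.symm, mul_zero]
      · intro h; exact absurd (Finset.mem_range.2 hi) h
    · have := hT x hx i (not_lt.1 hi)
      rw [this.1, this.2]
  have hdeg : (∏ x ∈ Q, q x).natDegree < Fintype.card (ZMod p) := by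
    rw [ZMod.card]
    refine lt_of_le_of_lt (Polynomial.natDegree_prod_le _ _) (lt_of_le_of_lt ?_ hQ)
    rw [Finset.card_eq_sum_ones, Finset.sum_mul]
    refine Finset.sum_le_sum fun x _ => ?_
    rw [one_mul]
    refine Polynomial.natDegree_sum_le_of_forall_le _ _ fun i hi => ?_
    exact (Polynomial.natDegree_C_mul_X_pow_le _ _).trans (Finset.mem_range.1 hi).le
  obtain ⟨a, ha⟩ : ∃ a : ZMod p, (∏ x ∈ Q, q x).eval a ≠ 0 := by
    by_contra hcon
    push Not at hcon
    have h3 : (∏ x ∈ Q, q x) = 0 := by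
      apply Polynomial.eq_zero_of_natDegree_lt_card_of_eval_eq_zero' _ Finset.univ
        (fun i _ => hcon i)
      simpa using hdeg
    exact (Finset.prod_ne_zero_iff.2 hq0) h3
  refine ⟨a.val, ZMod.val_lt a, fun x hx h => ?_⟩
  rw [Polynomial.eval_prod, Finset.prod_ne_zero_iff] at ha
  apply ha x hx
  have h5 : lamF p T a.val x.1 - lamF p T a.val x.2 = 0 := sub_eq_zero.2 h
  rw [← h5]
  simp only [hq, lamF, AddMonoidHom.coe_mk, ZeroHom.coe_mk, Polynomial.eval_finsetSum,
    Polynomial.eval_mul, Polynomial.eval_C, Polynomial.eval_pow, Polynomial.eval_X,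
    ← Finset.sum_sub_distrib, ZMod.natCast_val, ZMod.cast_id', id]
  refine Finset.sum_congr rfl fun i _ => ?_
  ring

end

end Pool.Agent.W945.Rk
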