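import Pool.Agent.W945.Rk.Final

/-! # The number of points -/

namespace Pool.Agent.W945.Rk

variable {k s n F w d L : ℕ} {ρ : ℕ → Fin n}

theorem choices_card {Λ : ℕ} (hΛ : 1 ≤ Λ) {M : ℕ} : ∀ m, m ≤ M →
    (choices k s Λ m).card ≤ PP Λ (Nat.log (RR k s) M) ^ TT k s m := by
  intro m
  induction m using Nat.strong_induction_on with
  | _ m ih =>
    intro hm
    have hP : 1 ≤ PP Λ (Nat.log (RR k s) M) := by have := PP_pos (Λ := Λ) (Nat.log (RR k s) M); omega
    rw [choices, TT]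
    split_ifs with h
    · refine Finset.card_image_le.trans ?_
      rw [Finset.card_product, Finset.card_product, Finset.card_range, pow_add, pow_add, mul_assoc]
      refine Nat.mul_le_mul (ih _ h.2.1 (by have := h.2.1; omega)) (Nat.mul_le_mul ?_
        (ih _ h.2.2 (by have := h.2.2; omega)))
      refine (PP_mono hΛ (Nat.log_mono_right hm)).trans ?_
      exact Nat.le_self_pow (by omega) _
    · rw [Finset.card_singleton]
      exact Nat.one_le_pow _ _ hP

theorem PP_le {Λ : ℕ} (hΛ : 1 ≤ Λ) (h : ℕ) : PP Λ h ≤ 2 * (2 * Λ) ^ h := by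
  induction h with
  | zero => simp [PP]
  | succ h ih =>
    have h1 := PP_pos (Λ := Λ) h
    have h2 : Λ * PP Λ h ≠ 0 := by positivity
    rw [PP]
    refine (np_le h2).trans ?_
    calc 2 * (Λ * PP Λ h) ≤ 2 * (Λ * (2 * (2 * Λ) ^ h)) :=
        Nat.mul_le_mul_left _ (Nat.mul_le_mul_left _ ih)
      _ = 2 * (2 * Λ) ^ (h + 1) := by rw [pow_succ]; ring

theorem YY_ge_two : 2 ≤ YY n F w d L := by
  unfold YY
  have h1 : 1 ≤ (n + 2) * (F + 2) * (w + 2) * (d + 2) := Nat.one_le_iff_ne_zero.2 (by positivity)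
  nlinarith

theorem n_le_YY : n ≤ YY n F w d L := by
  unfold YY
  have h1 : 1 ≤ (F + 2) * (w + 2) * (d + 2) * (L + 2) := Nat.one_le_iff_ne_zero.2 (by positivity)
  calc n ≤ (n + 2) * 1 := by omega
    _ ≤ (n + 2) * ((F + 2) * (w + 2) * (d + 2) * (L + 2)) := Nat.mul_le_mul_left _ h1
    _ = _ := by ring

theorem F_le_YY : F ≤ YY n F w d L := by
  unfold YY
  have h1 : 1 ≤ (n + 2) * (w + 2) * (d + 2) * (L + 2) := Nat.one_le_iff_ne_zero.2 (by positivity)
  calc F ≤ (F + 2) * 1 := by omega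
    _ ≤ (F + 2) * ((n + 2) * (w + 2) * (d + 2) * (L + 2)) := Nat.mul_le_mul_left _ h1
    _ = _ := by ring

theorem w_le_YY : w ≤ YY n F w d L := by
  unfold YY
  have h1 : 1 ≤ (n + 2) * (F + 2) * (d + 2) * (L + 2) := Nat.one_le_iff_ne_zero.2 (by positivity)
  calc w ≤ (w + 2) * 1 := by omega
    _ ≤ (w + 2) * ((n + 2) * (F + 2) * (d + 2) * (L + 2)) := Nat.mul_le_mul_left _ h1
    _ = _ := by ring

theorem FdL_lt_YY : F * (d * L) + 1 ≤ YY n F w d L := by
  unfold YY
  have h1 : 1 ≤ (n + 2) * (w + 2) := Nat.one_le_iff_ne_zero.2 (by positivity)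
  have h2 : d * L + 1 ≤ (d + 2) * (L + 2) := by nlinarith
  calc F * (d * L) + 1 ≤ (F + 2) * (d * L + 1) := by nlinarith
    _ ≤ ((F + 2) * ((d + 2) * (L + 2))) * 1 := by
        rw [mul_one]; exact Nat.mul_le_mul_left _ h2
    _ ≤ ((F + 2) * ((d + 2) * (L + 2))) * ((n + 2) * (w + 2)) := Nat.mul_le_mul_left _ h1
    _ = _ := by ring

theorem dL_le_YY : d * L ≤ YY n F w d L := by
  unfold YY
  have h1 : 1 ≤ (n + 2) * (F + 2) * (w + 2) := Nat.one_le_iff_ne_zero.2 (by positivity)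
  have h2 : d * L ≤ (d + 2) * (L + 2) := by nlinarith
  calc d * L ≤ ((d + 2) * (L + 2)) * 1 := by rw [mul_one]; exact h2
    _ ≤ ((d + 2) * (L + 2)) * ((n + 2) * (F + 2) * (w + 2)) := Nat.mul_le_mul_left _ h1
    _ = _ := by ring

theorem lt_pow_of {a : ℕ} {Y : ℕ} (hY : 2 ≤ Y) : a < Y ^ a :=
  lt_of_lt_of_le Nat.lt_two_pow_self (Nat.pow_le_pow_left hY a)

theorem Lam0_le : 2 * Lam0 k s F w d L n ≤
    YY n F w d L ^ (s + 5 + 4 * (BB k s * Nat.log (RR k s) n + 1)) := by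
  set Y := YY n F w d L with hY
  have hY2 : 2 ≤ Y := YY_ge_two
  set N0 := BB k s * Nat.log (RR k s) n + 1 with hN0
  unfold Lam0 Lam
  rw [← hN0]
  have h1 : s + 2 ≤ Y ^ (s + 1) := lt_pow_of (a := s + 1) hY2
  have h2 : ((w * w) ^ N0) ^ 2 ≤ Y ^ (4 * N0) := by
    calc ((w * w) ^ N0) ^ 2 = w ^ (4 * N0) := by rw [← sq, ← pow_mul, ← pow_mul]; ring_nf
      _ ≤ Y ^ (4 * N0) := Nat.pow_le_pow_left w_le_YY _
  have h3 : (s + 2) * (F * n) * ((w * w) ^ N0) ^ 2 ≤ Y ^ (s + 3 + 4 * N0) := by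
    calc (s + 2) * (F * n) * ((w * w) ^ N0) ^ 2 ≤ Y ^ (s + 1) * (Y * Y) * Y ^ (4 * N0) :=
          Nat.mul_le_mul (Nat.mul_le_mul h1 (Nat.mul_le_mul F_le_YY n_le_YY)) h2
      _ = Y ^ (s + 3 + 4 * N0) := by ring
  have h4 : N0 * (d * L) ≤ Y ^ (s + 3 + 4 * N0) := by
    calc N0 * (d * L) ≤ Y ^ N0 * Y ^ 1 := by
          rw [pow_one]
          exact Nat.mul_le_mul (lt_pow_of hY2).le dL_le_YY
      _ = Y ^ (N0 + 1) := by rw [← pow_add]
      _ ≤ Y ^ (s + 3 + 4 * N0) := Nat.pow_le_pow_right (by omega) (by omega)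
  calc 2 * ((s + 2) * (F * n) * ((w * w) ^ N0) ^ 2 + N0 * (d * L))
      ≤ 2 * (Y ^ (s + 3 + 4 * N0) + Y ^ (s + 3 + 4 * N0)) := by omega
    _ = 2 * 2 * Y ^ (s + 3 + 4 * N0) := by ring
    _ ≤ Y * Y * Y ^ (s + 3 + 4 * N0) := Nat.mul_le_mul_right _ (Nat.mul_le_mul hY2 hY2)
    _ = Y ^ (s + 5 + 4 * N0) := by ring

/-- the exponent of the bound for `XX` -/
def bb (k s n : ℕ) : ℕ :=
  1 + Nat.log (RR k s) n * (s + 5 + 4 * (BB k s * Nat.log (RR k s) n + 1))

theorem XX_le [NeZero w] (hF : 0 < F) (hn : 0 < n) : XX k s F w d L n ≤ YY n F w d L ^ bb k s n := by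
  have hY2 : 2 ≤ YY n F w d L := YY_ge_two
  unfold XX
  refine (PP_le (one_le_Lam0 hF hn) _).trans ?_
  rw [bb, pow_add, pow_one]
  refine Nat.mul_le_mul hY2 ?_
  rw [mul_comm (Nat.log (RR k s) n), pow_mul]
  exact Nat.pow_le_pow_left Lam0_le _

theorem points_card_le [NeZero w] (hF : 0 < F) (hn : 0 < n) : (points k s F w d L ρ).card ≤
    YY n F w d L ^ ((2 * bb k s n + 1) * T1 k s L ρ) * (F * (d * L) + 1) ^ (heavy k L ρ).card := by
  set Y := YY n F w d L with hY
  set X := XX k s F w d L n with hX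
  have hX1 : 1 ≤ X := by
    have := PP_pos (Λ := Lam0 k s F w d L n) (Nat.log (RR k s) n)
    rw [hX, XX]; omega
  have h1 : (points k s F w d L ρ).card ≤ X ^ T1 k s L ρ *
      ((F * (d * L) * X + 1) ^ T1 k s L ρ * (F * (d * L) + 1) ^ (heavy k L ρ).card) := by
    unfold points
    refine Finset.card_biUnion_le.trans ?_
    refine (Finset.sum_le_card_nsmul _ _ ((F * (d * L) * X + 1) ^ T1 k s L ρ *
      (F * (d * L) + 1) ^ (heavy k L ρ).card) fun ch _ => ?_).trans ?_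
    · refine Finset.card_image_le.trans (le_of_eq ?_)
      rw [Fintype.card_piFinset]
      simp_rw [Finset.card_range]
      rw [Fin.prod_univ_eq_prod_range (fun i => gr k s F w d L ρ i), T2, Finset.prod_range_add]
      congr 1
      · rw [Finset.prod_congr rfl (g := fun _ => F * (d * L) * X + 1), Finset.prod_const,
          Finset.card_range]
        intro i hi
        rw [gr, if_pos (Finset.mem_range.1 hi)]
      · rw [Finset.prod_congr rfl (g := fun _ => F * (d * L) + 1), Finset.prod_const,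
          Finset.card_range]
        intro i _
        rw [gr, if_neg (by omega)]
    · rw [smul_eq_mul]
      exact Nat.mul_le_mul_right _ (choices_card (one_le_Lam0 hF hn) _ light_card_le)
  refine h1.trans ?_
  rw [← mul_assoc, ← mul_pow]
  refine Nat.mul_le_mul_right _ ?_
  rw [pow_mul]
  refine Nat.pow_le_pow_left ?_ _
  have h2 : X ≤ Y ^ bb k s n := XX_le hF hn
  have h3 : F * (d * L) * X + 1 ≤ Y * X := by
    calc F * (d * L) * X + 1 ≤ (F * (d * L) + 1) * X := by nlinarith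
      _ ≤ Y * X := Nat.mul_le_mul_right _ FdL_lt_YY
  calc X * (F * (d * L) * X + 1) ≤ Y ^ bb k s n * (Y * Y ^ bb k s n) :=
        Nat.mul_le_mul h2 (h3.trans (Nat.mul_le_mul_left _ h2))
    _ = Y ^ (2 * bb k s n + 1) := by ring

/-! ## The number of coordinates -/

/-- The recursion. -/
theorem TT_rpow (hk : 1 ≤ k) {α : ℝ} (hα : 0 < α) (hα1 : α ≤ 1)
    (hc : (4 * ((s : ℝ) + 1) ^ k) ^ (1 - α) ≤ α * (s + 1)) : ∀ m, 1 ≤ m →
    (TT k s m : ℝ) + (s + 1) ≤ (QQ k s + s + 1) * (m : ℝ) ^ α := by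
  intro m
  induction m using Nat.strong_induction_on with
  | _ m ih =>
    intro hm
    rw [TT]
    split_ifs with h
    · have hQ := QQ_pos (s := s) hk
      have hRQ := RR_le_QQ (s := s) hk
      have hsR := s_le_RR (s := s) hk
      have hRp : 0 < RR k s := RR_pos
      set x := m / RR k s with hx
      set y := m - (s + 1) * x with hy
      have hx1 : 1 ≤ x := (Nat.one_le_div_iff RR_pos).2 (by have := h.1; omega)
      have h4 : x * RR k s ≤ m := Nat.div_mul_le_self _ _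
      have h4' : m < RR k s * (x + 1) := Nat.lt_mul_div_succ m hRp
      have h5 : x * (2 * (s + 1)) ≤ x * RR k s := Nat.mul_le_mul_left _ hsR
      have h6 : 2 * ((s + 1) * x) ≤ m := by nlinarith
      have hy1 : 1 ≤ y := by omega
      have hyr : (y : ℝ) = m - (s + 1) * x := by
        rw [hy, Nat.cast_sub (by omega)]; push_cast; ring
      have i1 := ih x h.2.1 hx1
      have i2 := ih y h.2.2 hy1
      have hm0 : (0 : ℝ) < m := by exact_mod_cast hm
      have hx0 : (0 : ℝ) < x := by exact_mod_cast hx1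
      have hy0 : (0 : ℝ) < y := by exact_mod_cast hy1
      set ξ : ℝ := x / m with hξ
      have hξ0 : 0 < ξ := div_pos hx0 hm0
      have hxm : (x : ℝ) = ξ * m := by rw [hξ]; field_simp
      have hym : (y : ℝ) = (1 - (s + 1) * ξ) * m := by rw [hyr, hxm]; ring
      have hξ1 : 0 ≤ 1 - (s + 1) * ξ := by
        by_contra hneg
        push Not at hneg
        have := mul_neg_of_neg_of_pos hneg hm0
        rw [← hym] at this
        linarith
      have hξl : 1 / (4 * ((s : ℝ) + 1) ^ k) ≤ ξ := by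
        rw [hξ, div_le_div_iff₀ (by positivity) hm0, one_mul]
        have h7 : m ≤ x * (2 * RR k s) := by nlinarith
        have h8 : (m : ℝ) ≤ (x * (2 * RR k s) : ℕ) := by exact_mod_cast h7
        refine h8.trans (le_of_eq ?_)
        unfold RR; push_cast; ring
      have key : ξ ^ α + (1 - (s + 1) * ξ) ^ α ≤ 1 := by
        have k1 : (1 + (-((s + 1) * ξ))) ^ α ≤ 1 + α * (-((s + 1) * ξ)) :=
          rpow_one_add_le_one_add_mul_self (by linarith) hα.le hα1
        have k2 : ξ ^ α ≤ α * (s + 1) * ξ := by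
          have k3 : ξ ^ α = ξ ^ (α - 1) * ξ := by
            rw [← Real.rpow_add_one hξ0.ne']; ring_nf
          rw [k3]
          apply mul_le_mul_of_nonneg_right _ hξ0.le
          refine le_trans ?_ hc
          have k4 : ξ ^ (α - 1) = (ξ⁻¹) ^ (1 - α) := by
            rw [Real.inv_rpow hξ0.le, ← Real.rpow_neg hξ0.le]; ring_nf
          rw [k4]
          apply Real.rpow_le_rpow (by positivity) _ (by linarith)
          rw [inv_le_comm₀ hξ0 (by positivity), ← one_div]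
          exact hξl
        have k5 : (1 - ((s : ℝ) + 1) * ξ) = (1 + (-((s + 1) * ξ))) := by ring
        rw [k5]
        nlinarith
      have hsum : (x : ℝ) ^ α + (y : ℝ) ^ α ≤ (m : ℝ) ^ α := by
        rw [hxm, hym, Real.mul_rpow hξ0.le hm0.le, Real.mul_rpow hξ1 hm0.le, ← add_mul]
        have : 0 ≤ (m : ℝ) ^ α := by positivity
        nlinarith
      have hA : (0 : ℝ) ≤ QQ k s + s + 1 := by positivity
      have := mul_le_mul_of_nonneg_left hsum hA
      push_cast
      nlinarith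
    · have hQ := QQ_pos (s := s) hk
      have hlt : m < QQ k s := by
        by_contra hge
        exact h (Stp_of hk (not_lt.1 hge))
      have hm1 : (1 : ℝ) ≤ (m : ℝ) ^ α := Real.one_le_rpow (by exact_mod_cast hm) hα.le
      have hlt' : (m : ℝ) ≤ QQ k s := by exact_mod_cast hlt.le
      have hA : (0 : ℝ) ≤ QQ k s + s + 1 := by positivity
      have := mul_le_mul_of_nonneg_left hm1 hA
      linarith

theorem T1_rpow (hk : 1 ≤ k) {α : ℝ} (hα : 0 < α) (hα1 : α ≤ 1)
    (hc : (4 * ((s : ℝ) + 1) ^ k) ^ (1 - α) ≤ α * (s + 1)) :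
    (T1 k s L ρ : ℝ) ≤ (QQ k s + s + 1) * (n : ℝ) ^ α := by
  unfold T1
  have hA : (0 : ℝ) ≤ QQ k s + s + 1 := by positivity
  rcases Nat.eq_zero_or_pos (light k L ρ).card with h | h
  · rw [h, TT_zero hk]
    simp only [Nat.cast_zero]
    positivity
  · have h1 := TT_rpow hk hα hα1 hc _ h
    have h2 : ((light k L ρ).card : ℝ) ^ α ≤ (n : ℝ) ^ α :=
      Real.rpow_le_rpow (by positivity) (by exact_mod_cast light_card_le) hα.le
    have := mul_le_mul_of_nonneg_left h2 hA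
    have h3 : (0 : ℝ) ≤ s + 1 := by positivity
    linarith

theorem bb_le (hk : 1 ≤ k) : 2 * bb k s n + 1 ≤
    (2 * s + 21 + 8 * BB k s) * (1 + Nat.log 2 n) ^ 2 := by
  have h1 : Nat.log (RR k s) n ≤ Nat.log 2 n := by
    apply Nat.log_anti_left (by norm_num)
    have := s_le_RR (s := s) hk
    omega
  unfold bb
  set l := Nat.log (RR k s) n
  set l' := Nat.log 2 n
  have h2 : 2 * (1 + l * (s + 5 + 4 * (BB k s * l + 1))) + 1 ≤
      (2 * s + 21 + 8 * BB k s) * (1 + l) ^ 2 := by nlinarith [Nat.zero_le (BB k s * l), Nat.zero_le (s * l * l), Nat.zero_le (l * l), Nat.zero_le (s * l), Nat.zero_le l]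
  exact h2.trans (Nat.mul_le_mul_left _ (Nat.pow_le_pow_left (by omega) _))

/-- **The explicit bound.** -/
theorem points_card (hk : 1 ≤ k) {α : ℝ} (hα : 0 < α) (hα1 : α ≤ 1)
    (hc : (4 * ((s : ℝ) + 1) ^ k) ^ (1 - α) ≤ α * (s + 1)) (hF : 1 ≤ F) (hw : 1 ≤ w) (hn : 1 ≤ n) :
    ((points k s F w d L ρ).card : ℝ) ≤
      (YY n F w d L : ℝ) ^ (CC k s * (n : ℝ) ^ α * (1 + Nat.log 2 n) ^ 2) *
        (F * (d * L) + 1) ^ (heavy k L ρ).card := by
  have : NeZero w := ⟨by omega⟩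
  have h1 := points_card_le (k := k) (s := s) (w := w) (d := d) (L := L) (ρ := ρ) hF hn
  have h2 : ((points k s F w d L ρ).card : ℝ) ≤
    ((YY n F w d L ^ ((2 * bb k s n + 1) * T1 k s L ρ) * (F * (d * L) + 1) ^ (heavy k L ρ).card : ℕ) : ℝ) := by
    exact_mod_cast h1
  refine h2.trans ?_
  push_cast
  apply mul_le_mul_of_nonneg_right _ (by positivity)
  rw [← Real.rpow_natCast]
  have hY : (1 : ℝ) ≤ YY n F w d L := by
    have := YY_ge_two (n := n) (F := F) (w := w) (d := d) (L := L)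
    exact_mod_cast (by omega : 1 ≤ YY n F w d L)
  apply Real.rpow_le_rpow_of_exponent_le hY
  push_cast
  have h3 : ((2 * bb k s n + 1 : ℕ) : ℝ) ≤ ((2 * s + 21 + 8 * BB k s) * (1 + Nat.log 2 n) ^ 2 : ℕ) := by
    exact_mod_cast bb_le hk
  push_cast at h3
  have h4 := T1_rpow (L := L) (ρ := ρ) hk hα hα1 hc
  calc (2 * (bb k s n : ℝ) + 1) * T1 k s L ρ
      ≤ ((2 * s + 21 + 8 * BB k s) * (1 + Nat.log 2 n) ^ 2) * ((QQ k s + s + 1) * (n : ℝ) ^ α) :=
        mul_le_mul h3 h4 (by positivity) (by positivity)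
    _ = CC k s * (n : ℝ) ^ α * (1 + Nat.log 2 n) ^ 2 := by
        unfold CC; push_cast; ring

end Pool.Agent.W945.Rk
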