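import Pool.Agent.W945.Rk.Bound

/-! # Coordinates of the points, asymptotic bounds -/

namespace Pool.Agent.W945.Rk

variable {k s n F w d L : ℕ} {ρ : ℕ → Fin n}

/-! ## The exponents for all choices -/

theorem gen_bounds (hk : 1 ≤ k) {Λ : ℕ} (hΛ1 : 1 ≤ Λ) : ∀ m, ∀ ch ∈ choices k s Λ m,
    ∀ U : Finset (Fin n), U.card = m → (∀ u ∈ U, ∃ p < L, ρ p = u) →
    (∀ u ∈ U, ((Finset.range L).filter fun p => ρ p = u).card ≤ k) →
    (∀ u i, TT k s m ≤ i → gen k s L ρ Λ ch U u i = 0) ∧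
    (∀ u i, gen k s L ρ Λ ch U u i < PP Λ (Nat.log (RR k s) m)) := by
  intro m
  induction m using Nat.strong_induction_on with
  | _ m ih =>
    intro ch hch U hU hread hr
    rw [choices] at hch
    split_ifs at hch with hSt
    · obtain ⟨⟨ch1, κ, ch2⟩, hx, rfl⟩ := Finset.mem_image.1 hch
      rw [Finset.mem_product, Finset.mem_product, Finset.mem_range] at hx
      obtain ⟨hch1, hκ, hch2⟩ := hx
      simp only at hch1 hκ hch2
      have hm := hSt.1
      have hQ := QQ_pos (s := s) hk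
      have hRQ := RR_le_QQ (s := s) hk
      have hsR := s_le_RR (s := s) hk
      set m' := m / RR k s with hm'
      have hm'1 : 1 ≤ m' := (Nat.one_le_div_iff RR_pos).2 (by omega)
      have hlog1 : 1 ≤ Nat.log (RR k s) m := Nat.log_pos (by omega) (by omega)
      have hlog2 : Nat.log (RR k s) m' = Nat.log (RR k s) m - 1 := Nat.log_div_base _ _
      have hQU : QQ k s ≤ U.card := by rw [hU]; exact hm
      have H1 := fun c => ih m' hSt.2.1 ch1 hch1 (part k s L ρ U c)
        (by rw [part_card hk hQU hr, hU]) (fun u hu => hread u (part_subset c hu))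
        (fun u hu => hr u (part_subset c hu))
      have H2 := ih (m - (s + 1) * m') hSt.2.2 ch2 hch2 (U \ parts k s L ρ U)
        (by rw [Finset.card_sdiff_of_subset parts_subset, parts_card hk hQU hr hread, hU])
        (fun u hu => hread u (Finset.mem_sdiff.1 hu).1)
        (fun u hu => hr u (Finset.mem_sdiff.1 hu).1)
      have hP0 : 0 < PP Λ (Nat.log (RR k s) m) := by
        have := PP_pos (Λ := Λ) (Nat.log (RR k s) m); omega
      have hPm : PP Λ (Nat.log (RR k s) m') ≤ PP Λ (Nat.log (RR k s) m) :=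
        PP_mono hΛ1 (by omega)
      have hTTm : TT k s m = TT k s m' + (s + 1) + TT k s (m - (s + 1) * m') := by
        rw [TT, dif_pos hSt]
      have hgen1 : ∀ u i, TT k s m' + (s + 1) ≤ i → gen1 k s L ρ Λ ch1 κ U u i = 0 := by
        intro u i hi
        by_cases hu : u ∈ parts k s L ρ U
        · rw [parts, Finset.mem_biUnion] at hu
          obtain ⟨c, _, hc⟩ := hu
          have hc2 := c.2
          rw [gen1_of_mem hread hc, hU, ← hm', Finsupp.add_apply,
            (H1 c).1 u i (by omega), Finsupp.single_apply, if_neg (by omega), add_zero]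
        · rw [gen1_of_notMem hu, Finsupp.zero_apply]
      constructor
      · intro u i hi
        rw [hTTm] at hi
        rw [gen_node, hU, ← hm', Finsupp.add_apply, mapDomain_add_apply, hgen1 u i (by omega),
          if_pos (by omega), H2.1 u _ (by omega), add_zero]
      · intro u i
        rw [gen_node, hU, ← hm', Finsupp.add_apply, mapDomain_add_apply]
        split_ifs with hi
        · rw [hgen1 u i hi, zero_add]
          exact lt_of_lt_of_le (H2.2 u _)
            (PP_mono hΛ1 (Nat.log_mono_right (Nat.sub_le _ _)))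
        · rw [add_zero]
          by_cases hu : u ∈ parts k s L ρ U
          · rw [parts, Finset.mem_biUnion] at hu
            obtain ⟨c, _, hc⟩ := hu
            rw [gen1_of_mem hread hc, hU, ← hm', Finsupp.add_apply, Finsupp.single_apply]
            split_ifs with hci
            · rw [(H1 c).1 u i (by omega), zero_add]
              exact Nat.mod_lt _ hP0
            · rw [add_zero]
              exact lt_of_lt_of_le ((H1 c).2 u i) hPm
          · rw [gen1_of_notMem hu, Finsupp.zero_apply]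
            exact hP0
    · rw [Finset.mem_singleton] at hch
      subst hch
      constructor
      · intro u i hi
        rw [TT, dif_neg hSt] at hi
        rw [gen]
        split_ifs with hu
        · rw [Finsupp.single_apply, if_neg]
          have := rank_lt hu
          rw [hU] at this
          omega
        · rfl
      · intro u i
        have h2 := PP_pos (Λ := Λ) (Nat.log (RR k s) m)
        rw [gen]
        split_ifs with hu
        · rw [Finsupp.single_apply]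
          split_ifs <;> omega
        · rw [Finsupp.zero_apply]; omega

theorem sum_expo [NeZero w] (hk : 1 ≤ k) (hF : 0 < F) (hn : 0 < n) {ch : Ch}
    (hch : ch ∈ choices k s (Lam0 k s F w d L n) (light k L ρ).card) (u : Fin n) :
    ∑ i ∈ Finset.range (T2 k s L ρ), expo k s F w d L ρ ch u i ≤
      T1 k s L ρ * XX k s F w d L n + 1 := by
  have hpos : ∀ u ∈ light k L ρ, ∃ p < L, ρ p = u := by
    intro u hu
    have h1 := (mem_light.1 hu).1
    obtain ⟨p, hp⟩ := Finset.card_pos.1 h1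
    simp only [Finset.mem_filter, Finset.mem_range] at hp
    exact ⟨p, hp⟩
  obtain ⟨H1, H2⟩ := gen_bounds hk (one_le_Lam0 (k := k) (s := s) (d := d) (L := L) hF hn) _ ch hch
    (light k L ρ) rfl hpos (fun u hu => (mem_light.1 hu).2)
  have h3 : ∑ i ∈ Finset.range (T2 k s L ρ),
      gen k s L ρ (Lam0 k s F w d L n) ch (light k L ρ) u i ≤ T1 k s L ρ * XX k s F w d L n := by
    rw [T2, Finset.sum_range_add]
    have h4 : ∑ i ∈ Finset.range (heavy k L ρ).card,
        gen k s L ρ (Lam0 k s F w d L n) ch (light k L ρ) u (T1 k s L ρ + i) = 0 :=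
      Finset.sum_eq_zero fun i _ => H1 u _ (Nat.le_add_right _ _)
    rw [h4, add_zero]
    refine (Finset.sum_le_card_nsmul _ _ (XX k s F w d L n) fun i _ => ?_).trans ?_
    · exact (H2 u i).le.trans (PP_mono (one_le_Lam0 hF hn) (Nat.log_mono_right light_card_le))
    · rw [Finset.card_range, smul_eq_mul]
  have h5 : ∑ i ∈ Finset.range (T2 k s L ρ), (if u ∈ heavy k L ρ then
      Finsupp.single (((heavy k L ρ).filter (· < u)).card + T1 k s L ρ) 1 else 0 : ℕ →₀ ℕ) i
        ≤ 1 := by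
    split_ifs
    · simp only [Finsupp.single_apply, Finset.sum_ite_eq]
      split_ifs <;> omega
    · simp
  simp only [expo, Finsupp.add_apply, Finset.sum_add_distrib]
  omega

theorem abs_le_of_mem [NeZero w] (hk : 1 ≤ k) (hF : 0 < F) (hn : 0 < n) {x : Fin n → ℤ}
    (hx : x ∈ points k s F w d L ρ) (u : Fin n) :
    (x u).natAbs ≤ 2 ^ (YY n F w d L ^ (CC k s * (1 + Nat.log 2 n) ^ 2)) := by
  obtain ⟨ch, hch, hx⟩ := Finset.mem_biUnion.1 hx
  obtain ⟨t, ht, rfl⟩ := Finset.mem_image.1 hx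
  rw [Fintype.mem_piFinset] at ht
  set Y := YY n F w d L with hY
  set X := XX k s F w d L n with hX
  have hY2 : 2 ≤ Y := YY_ge_two
  have hX1 : 1 ≤ X := by
    have := PP_pos (Λ := Lam0 k s F w d L n) (Nat.log (RR k s) n)
    rw [hX, XX]; omega
  have hYX : 1 ≤ Y * X := Nat.one_le_iff_ne_zero.2 (by positivity)
  have h1 : (∏ i : Fin (T2 k s L ρ), (t i : ℤ) ^ (expo k s F w d L ρ ch u i)).natAbs =
      ∏ i : Fin (T2 k s L ρ), (t i) ^ (expo k s F w d L ρ ch u i) := by
    have : (∏ i : Fin (T2 k s L ρ), (t i : ℤ) ^ (expo k s F w d L ρ ch u i)) =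
      ((∏ i : Fin (T2 k s L ρ), (t i) ^ (expo k s F w d L ρ ch u i) : ℕ) : ℤ) := by push_cast; rfl
    rw [this, Int.natAbs_natCast]
  have h2 : ∏ i : Fin (T2 k s L ρ), (t i) ^ (expo k s F w d L ρ ch u i) ≤
      (Y * X) ^ (T1 k s L ρ * X + 1) := by
    calc ∏ i : Fin (T2 k s L ρ), (t i) ^ (expo k s F w d L ρ ch u i)
        ≤ ∏ i : Fin (T2 k s L ρ), (Y * X) ^ (expo k s F w d L ρ ch u i) := by
          refine Finset.prod_le_prod' fun i _ => Nat.pow_le_pow_left ?_ _
          have h3 := Finset.mem_range.1 (ht i)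
          have h4 : gr k s F w d L ρ i ≤ F * (d * L) * X + 1 := by
            rw [gr]; split_ifs
            · rfl
            · exact Nat.add_le_add_right (Nat.le_mul_of_pos_right _ hX1) _
          have h5 : F * (d * L) * X ≤ Y * X := Nat.mul_le_mul_right _ ((Nat.le_succ _).trans FdL_lt_YY)
          omega
      _ = (Y * X) ^ ∑ i ∈ Finset.range (T2 k s L ρ), expo k s F w d L ρ ch u i := by
          rw [Finset.prod_pow_eq_pow_sum,
            Fin.sum_univ_eq_sum_range (fun i => expo k s F w d L ρ ch u i)]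
      _ ≤ (Y * X) ^ (T1 k s L ρ * X + 1) := Nat.pow_le_pow_right hYX (sum_expo hk hF hn hch u)
  have hXb : X ≤ Y ^ bb k s n := XX_le hF hn
  have h3 : Y * X ≤ 2 ^ (Y * (bb k s n + 1)) := by
    calc Y * X ≤ Y * Y ^ bb k s n := Nat.mul_le_mul_left _ hXb
      _ = Y ^ (bb k s n + 1) := by ring
      _ ≤ (2 ^ Y) ^ (bb k s n + 1) := Nat.pow_le_pow_left Nat.lt_two_pow_self.le _
      _ = 2 ^ (Y * (bb k s n + 1)) := by rw [← pow_mul]
  have hT1 : T1 k s L ρ ≤ Y ^ (s + 2) := by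
    have h4 : T1 k s L ρ ≤ (s + 2) * n := by
      unfold T1
      rcases Nat.eq_zero_or_pos (light k L ρ).card with h | h
      · rw [h, TT_zero hk]; omega
      · have := TT_le (s := s) hk _ h
        have h5 := Nat.mul_le_mul_left (s + 2) (light_card_le (k := k) (L := L) (ρ := ρ))
        omega
    calc T1 k s L ρ ≤ (s + 2) * n := h4
      _ ≤ Y ^ (s + 1) * Y := Nat.mul_le_mul (lt_pow_of (a := s + 1) hY2) n_le_YY
      _ = Y ^ (s + 2) := by ring
  have hexp : Y * (bb k s n + 1) * (T1 k s L ρ * X + 1) ≤ Y ^ (s + 5 + 2 * bb k s n) := by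
    have h6 : T1 k s L ρ * X + 1 ≤ Y ^ (s + 3 + bb k s n) := by
      calc T1 k s L ρ * X + 1 ≤ Y ^ (s + 2) * Y ^ bb k s n + Y ^ (s + 2) * Y ^ bb k s n :=
            Nat.add_le_add (Nat.mul_le_mul hT1 hXb) (Nat.one_le_iff_ne_zero.2 (by positivity))
        _ = 2 * (Y ^ (s + 2) * Y ^ bb k s n) := by ring
        _ ≤ Y * (Y ^ (s + 2) * Y ^ bb k s n) := Nat.mul_le_mul_right _ hY2
        _ = Y ^ (s + 3 + bb k s n) := by ring
    calc Y * (bb k s n + 1) * (T1 k s L ρ * X + 1)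
        ≤ Y * Y ^ (bb k s n + 1) * Y ^ (s + 3 + bb k s n) :=
          Nat.mul_le_mul (Nat.mul_le_mul_left _ (lt_pow_of hY2).le) h6
      _ = Y ^ (s + 5 + 2 * bb k s n) := by ring
  have hfin : s + 5 + 2 * bb k s n ≤ CC k s * (1 + Nat.log 2 n) ^ 2 := by
    have h7 := bb_le (k := k) (s := s) (n := n) hk
    set q := (1 + Nat.log 2 n) ^ 2 with hq
    have hq1 : 1 ≤ q := Nat.one_le_pow _ _ (by omega)
    have hQ : 8 ≤ QQ k s := by
      unfold QQ
      calc 8 = 8 * 1 * 1 := by norm_num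
        _ ≤ 8 * k * (s + 1) ^ (2 * k + 1) :=
          Nat.mul_le_mul (Nat.mul_le_mul_left _ hk) (Nat.one_le_pow _ _ (by omega))
    have h8 : (2 * s + 21 + 8 * BB k s) * 9 ≤ CC k s :=
      Nat.mul_le_mul_left _ (by omega)
    have h9 : (2 * s + 21 + 8 * BB k s) * 9 * q ≤ CC k s * q := Nat.mul_le_mul_right _ h8
    nlinarith
  rw [h1]
  calc ∏ i : Fin (T2 k s L ρ), (t i) ^ (expo k s F w d L ρ ch u i)
      ≤ (Y * X) ^ (T1 k s L ρ * X + 1) := h2
    _ ≤ (2 ^ (Y * (bb k s n + 1))) ^ (T1 k s L ρ * X + 1) := Nat.pow_le_pow_left h3 _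
    _ = 2 ^ (Y * (bb k s n + 1) * (T1 k s L ρ * X + 1)) := by rw [← pow_mul]
    _ ≤ 2 ^ (Y ^ (CC k s * (1 + Nat.log 2 n) ^ 2)) :=
      Nat.pow_le_pow_right (by norm_num) (hexp.trans (Nat.pow_le_pow_right (by omega) hfin))

/-! ## Asymptotic bounds -/

theorem log_absorb {δ : ℝ} (hδ : 0 < δ) : ∃ C : ℕ, ∀ n : ℕ, 1 ≤ n →
    (1 + (Nat.log 2 n : ℝ)) ^ 2 ≤ C * (n : ℝ) ^ δ := by
  obtain ⟨C, hC⟩ := exists_nat_ge ((1 + 1 / (δ / 2 * Real.log 2)) ^ 2)
  refine ⟨C, fun n hn => ?_⟩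
  have hn1 : (1 : ℝ) ≤ n := by exact_mod_cast hn
  have hl2 : 0 < Real.log 2 := Real.log_pos (by norm_num)
  have h1 : (Nat.log 2 n : ℝ) ≤ Real.log n / Real.log 2 := by
    have := Real.natLog_le_logb n 2
    rw [Real.logb] at this
    exact_mod_cast this
  have h2 : Real.log n ≤ (n : ℝ) ^ (δ / 2) / (δ / 2) :=
    Real.log_le_rpow_div (by positivity) (by positivity)
  have h3 : (1 : ℝ) ≤ (n : ℝ) ^ (δ / 2) := Real.one_le_rpow hn1 (by positivity)
  have h4 : 1 + (Nat.log 2 n : ℝ) ≤ (1 + 1 / (δ / 2 * Real.log 2)) * (n : ℝ) ^ (δ / 2) := by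
    have h5 : Real.log n / Real.log 2 ≤ 1 / (δ / 2 * Real.log 2) * (n : ℝ) ^ (δ / 2) := by
      rw [div_le_iff₀ hl2]
      refine h2.trans (le_of_eq ?_)
      field_simp
    rw [add_mul, one_mul]
    linarith
  calc (1 + (Nat.log 2 n : ℝ)) ^ 2 ≤ ((1 + 1 / (δ / 2 * Real.log 2)) * (n : ℝ) ^ (δ / 2)) ^ 2 :=
        pow_le_pow_left₀ (by positivity) h4 2
    _ = (1 + 1 / (δ / 2 * Real.log 2)) ^ 2 * (n : ℝ) ^ δ := by
        rw [mul_pow, ← Real.rpow_natCast ((n : ℝ) ^ (δ / 2)), ← Real.rpow_mul (by positivity)]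
        congr 2
        push_cast; ring
    _ ≤ C * (n : ℝ) ^ δ := mul_le_mul_of_nonneg_right hC (by positivity)

/-- **The asymptotic bound.** -/
theorem points_card_asymp (hk : 1 ≤ k) {ε : ℝ} (hε : 0 < ε) : ∃ s C : ℕ,
    ∀ (n F w d L : ℕ) (ρ : ℕ → Fin n), 1 ≤ n → 1 ≤ F → 1 ≤ w →
      ((points k s F w d L ρ).card : ℝ) ≤
        (YY n F w d L : ℝ) ^ (C * (n : ℝ) ^ (1 - 1 / (k : ℝ) + ε)) *
          (F * (d * L) + 1) ^ (heavy k L ρ).card := by
  have hk0 : (0 : ℝ) < k := by exact_mod_cast hk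
  have hk1 : (1 : ℝ) ≤ k := by exact_mod_cast hk
  set e : ℝ := min (ε / 2) (1 / (2 * k)) with he
  have he0 : 0 < e := lt_min (by positivity) (by positivity)
  have he1 : e ≤ ε / 2 := min_le_left _ _
  have he2 : e ≤ 1 / (2 * k) := min_le_right _ _
  set α : ℝ := 1 - 1 / k + e with hα
  have hk2 : 1 / (k : ℝ) ≤ 1 := by rw [div_le_one hk0]; exact hk1
  have hα0 : 0 < α := by rw [hα]; linarith
  have he3 : e < 1 / (k : ℝ) := lt_of_le_of_lt he2 (by
    rw [div_lt_div_iff₀ (by positivity) hk0]; linarith)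
  have hα1 : α ≤ 1 := by rw [hα]; linarith
  obtain ⟨s, hs⟩ := exists_nat_ge ((4 / α) ^ (1 / (k * e)))
  obtain ⟨C, hC⟩ := log_absorb (δ := ε / 2) (by positivity)
  have hs1 : (4 / α) ^ (1 / ((k : ℝ) * e)) ≤ (s : ℝ) + 1 := by linarith
  have hS0 : (0 : ℝ) < (s : ℝ) + 1 := by positivity
  have h4α : 0 < 4 / α := by positivity
  have hs2 : 4 / α ≤ ((s : ℝ) + 1) ^ ((k : ℝ) * e) := by
    have h1 := Real.rpow_le_rpow (by positivity) hs1 (by positivity : 0 ≤ (k : ℝ) * e)
    rwa [← Real.rpow_mul h4α.le, one_div, inv_mul_cancel₀ (by positivity), Real.rpow_one] at h1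
  have hc : (4 * ((s : ℝ) + 1) ^ k) ^ (1 - α) ≤ α * (s + 1) := by
    have h1 : 1 - α = 1 / k - e := by rw [hα]; ring
    have h1' : 0 ≤ 1 - α := by linarith
    rw [Real.mul_rpow (by norm_num) (by positivity), ← Real.rpow_natCast, ← Real.rpow_mul hS0.le]
    have h2 : (k : ℝ) * (1 - α) = 1 - k * e := by rw [h1]; field_simp
    rw [h2, Real.rpow_sub hS0, Real.rpow_one]
    have h3 : (4 : ℝ) ^ (1 - α) ≤ 4 := by
      calc (4 : ℝ) ^ (1 - α) ≤ (4 : ℝ) ^ (1 : ℝ) :=
            Real.rpow_le_rpow_of_exponent_le (by norm_num) (by linarith)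
        _ = 4 := Real.rpow_one 4
    have hp : 0 < ((s : ℝ) + 1) ^ ((k : ℝ) * e) := by positivity
    rw [← mul_div_assoc, div_le_iff₀ hp]
    rw [div_le_iff₀ hα0] at hs2
    have h5 : 4 * ((s : ℝ) + 1) ≤ α * (s + 1) * ((s : ℝ) + 1) ^ ((k : ℝ) * e) := by
      have := mul_le_mul_of_nonneg_right hs2 hS0.le
      linarith
    have h6 : (4 : ℝ) ^ (1 - α) * (s + 1) ≤ 4 * (s + 1) := mul_le_mul_of_nonneg_right h3 hS0.le
    linarith
  refine ⟨s, CC k s * C, fun n F w d L ρ hn hF hw => ?_⟩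
  refine (points_card hk hα0 hα1 hc hF hw hn).trans ?_
  apply mul_le_mul_of_nonneg_right _ (by positivity)
  have hY : (1 : ℝ) ≤ YY n F w d L := by
    have := YY_ge_two (n := n) (F := F) (w := w) (d := d) (L := L)
    exact_mod_cast (by omega : 1 ≤ YY n F w d L)
  apply Real.rpow_le_rpow_of_exponent_le hY
  have hn1 : (1 : ℝ) ≤ n := by exact_mod_cast hn
  have hn0 : (0 : ℝ) < n := by linarith
  calc (CC k s : ℝ) * (n : ℝ) ^ α * (1 + Nat.log 2 n) ^ 2
      ≤ CC k s * (n : ℝ) ^ α * (C * (n : ℝ) ^ (ε / 2)) :=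
        mul_le_mul_of_nonneg_left (hC n hn) (by positivity)
    _ = CC k s * C * (n : ℝ) ^ (α + ε / 2) := by rw [Real.rpow_add hn0 α (ε / 2)]; ring
    _ ≤ CC k s * C * (n : ℝ) ^ (1 - 1 / (k : ℝ) + ε) := by
        apply mul_le_mul_of_nonneg_left _ (by positivity)
        apply Real.rpow_le_rpow_of_exponent_le hn1
        rw [hα]; linarith
    _ = ((CC k s * C : ℕ) : ℝ) * (n : ℝ) ^ (1 - 1 / (k : ℝ) + ε) := by push_cast; ring

theorem cube_le (k : ℕ) : k * k * k ≤ 2 * 4 ^ k := by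
  rcases Nat.lt_or_ge k 2 with h | h
  · interval_cases k <;> norm_num
  · induction k, h using Nat.le_induction with
    | base => norm_num
    | succ k hk ih =>
      rw [pow_succ]
      have h1 : (k + 1) * (k + 1) * (k + 1) ≤ 4 * (k * k * k) := by nlinarith [Nat.mul_le_mul hk hk]
      omega

theorem CC_le (hk : 1 ≤ k) : CC k 3 ≤ 2 ^ (10 * k + 16) := by
  unfold CC BB QQ
  have h0 : (3 + 1) ^ (2 * k + 1) = 4 * 16 ^ k := by
    rw [pow_succ, pow_mul]; norm_num; ring
  have h3 := cube_le k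
  have h4 : 2 ^ (10 * k + 16) = 65536 * (4 ^ k * (16 ^ k * 16 ^ k)) := by
    rw [pow_add, pow_mul, ← mul_pow, ← mul_pow]; norm_num; ring
  rw [h0, h4]
  set z := 16 ^ k with hz
  have hz1 : 1 ≤ z := Nat.one_le_pow _ _ (by norm_num)
  have h5 : 2 * 3 + 21 + 8 * (2 * k * (8 * k * (4 * z))) ≤ 539 * (k * k * z) := by
    have : 1 ≤ k * k * z := Nat.one_le_iff_ne_zero.2 (by positivity)
    nlinarith
  have h6 : 8 * k * (4 * z) + 3 + 1 ≤ 36 * (k * z) := by
    have : 1 ≤ k * z := Nat.one_le_iff_ne_zero.2 (by positivity)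
    nlinarith
  calc (2 * 3 + 21 + 8 * (2 * k * (8 * k * (4 * z)))) * (8 * k * (4 * z) + 3 + 1)
      ≤ 539 * (k * k * z) * (36 * (k * z)) := Nat.mul_le_mul h5 h6
    _ = 19404 * (k * k * k) * (z * z) := by ring
    _ ≤ 19404 * (2 * 4 ^ k) * (z * z) := Nat.mul_le_mul_right _ (Nat.mul_le_mul_left _ h3)
    _ ≤ 65536 * (4 ^ k * (z * z)) := by nlinarith [Nat.zero_le (4 ^ k * (z * z))]

/-- **The bound for four colours, explicit in `k`.** -/
theorem points_card_four (hk : 1 ≤ k) (hn : 1 ≤ n) (hF : 1 ≤ F) (hw : 1 ≤ w) :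
    ((points k 3 F w d L ρ).card : ℝ) ≤
      (YY n F w d L : ℝ) ^ (2 ^ (10 * k + 16) * (n : ℝ) ^ (1 - 1 / (2 * (k : ℝ) + 2)) *
        (1 + Nat.log 2 n) ^ 2) * (F * (d * L) + 1) ^ (heavy k L ρ).card := by
  have hk1 : (1 : ℝ) ≤ k := by exact_mod_cast hk
  have hq : 1 / (2 * (k : ℝ) + 2) ≤ 1 / 4 := by
    apply one_div_le_one_div_of_le <;> linarith
  have hq0 : 0 < 1 / (2 * (k : ℝ) + 2) := by positivity
  refine (points_card hk (α := 1 - 1 / (2 * (k : ℝ) + 2)) (by linarith) (by linarith) ?_ hF hw hn).trans ?_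
  · have h1 : (4 * (((3 : ℕ) : ℝ) + 1) ^ k) = (2 : ℝ) ^ (2 * (k : ℝ) + 2) := by
      have : (2 * (k : ℝ) + 2) = ((2 * k + 2 : ℕ) : ℝ) := by push_cast; ring
      rw [this, Real.rpow_natCast, pow_add, pow_mul]
      norm_num; ring
    rw [h1, sub_sub_cancel, ← Real.rpow_mul (by norm_num), mul_one_div_cancel (by positivity),
      Real.rpow_one]
    push_cast
    linarith
  · apply mul_le_mul_of_nonneg_right _ (by positivity)
    have hY : (1 : ℝ) ≤ YY n F w d L := by
      have := YY_ge_two (n := n) (F := F) (w := w) (d := d) (L := L)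
      exact_mod_cast (by omega : 1 ≤ YY n F w d L)
    apply Real.rpow_le_rpow_of_exponent_le hY
    have h2 : (CC k 3 : ℝ) ≤ 2 ^ (10 * k + 16) := by exact_mod_cast CC_le hk
    rw [mul_assoc, mul_assoc]
    exact mul_le_mul_of_nonneg_right h2 (by positivity)

end Pool.Agent.W945.Rk
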