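import Pool.Agent.W945.Rk.Defs

/-! # Balanced colourings of the blocks -/

namespace Pool.Agent.W945.Rk

open Finset

theorem card_const {M : ℕ} (s : ℕ) (A : Finset (Fin M)) (c : Fin (s + 1)) :
    ∑ χ : Fin M → Fin (s + 1), (if ∀ x ∈ A, χ x = c then (1 : ℝ) else 0) =
      ((s : ℝ) + 1) ^ M * ((s : ℝ) + 1)⁻¹ ^ A.card := by
  rw [Finset.sum_boole]
  have h1 : (Finset.univ.filter fun χ : Fin M → Fin (s + 1) => ∀ x ∈ A, χ x = c) =
      Fintype.piFinset (fun x => if x ∈ A then {c} else Finset.univ) := by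
    ext χ
    simp only [Finset.mem_filter, Finset.mem_univ, true_and, Fintype.mem_piFinset]
    constructor
    · intro h x
      split_ifs with hx
      · rw [Finset.mem_singleton]; exact h x hx
      · exact Finset.mem_univ _
    · intro h x hx
      have := h x
      rw [if_pos hx, Finset.mem_singleton] at this
      exact this
  rw [h1, Fintype.card_piFinset]
  have h2 : ∀ x : Fin M, (if x ∈ A then ({c} : Finset (Fin (s + 1))) else Finset.univ).card =
      if x ∈ A then 1 else (s + 1) := by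
    intro x
    split_ifs <;> simp
  simp_rw [h2]
  rw [Finset.prod_ite, Finset.prod_const_one, one_mul, Finset.prod_const]
  have h3 : (Finset.univ.filter fun x : Fin M => x ∉ A).card + A.card = M := by
    have h4 : (Finset.univ.filter fun x : Fin M => x ∉ A) = Aᶜ := by ext x; simp
    rw [h4, Finset.card_compl, Fintype.card_fin]
    have := Finset.card_le_univ A
    rw [Fintype.card_fin] at this
    omega
  have h5 : ((s : ℝ) + 1) ≠ 0 := by positivity
  push_cast
  have h6 : ((s : ℝ) + 1) ^ M = ((s : ℝ) + 1) ^ (Finset.univ.filter fun x : Fin M => x ∉ A).card *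
      ((s : ℝ) + 1) ^ A.card := by
    rw [← pow_add, h3]
  rw [h6, mul_assoc, ← mul_pow, mul_inv_cancel₀ h5, one_pow, mul_one]

theorem second_moment {α : Type} [DecidableEq α] (U : Finset α) {M : ℕ} (s : ℕ)
    (A : α → Finset (Fin M)) {k ℓ : ℕ} (hk : ∀ u ∈ U, (A u).card ≤ k)
    (hl : ∀ x, (U.filter fun u => x ∈ A u).card ≤ ℓ)
    (h : 4 * (s + 1) ^ (2 * k + 1) * (k * ℓ) < U.card) :
    ∃ χ : Fin M → Fin (s + 1), ∀ c, U.card / (2 * (s + 1) ^ k) ≤
      (U.filter fun u => ∀ x ∈ A u, χ x = c).card := by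
  by_contra hcon
  push Not at hcon
  choose c hc using hcon
  set R : ℝ := (s : ℝ) + 1 with hR
  have hR1 : 1 ≤ R := by rw [hR]; linarith [(Nat.cast_nonneg s : (0 : ℝ) ≤ s)]
  have hR0 : 0 < R := by linarith
  set q : ℝ := R⁻¹ with hq
  have hq0 : 0 < q := inv_pos.2 hR0
  have hq1 : q ≤ 1 := inv_le_one_of_one_le₀ hR1
  set m : ℝ := (U.card : ℝ) with hm
  set ind : α → Fin (s + 1) → (Fin M → Fin (s + 1)) → ℝ := fun u c χ =>
    if ∀ x ∈ A u, χ x = c then 1 else 0 with hind
  set μ : ℝ := ∑ u ∈ U, q ^ (A u).card with hμ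
  -- the second moment
  have hsm : ∀ c : Fin (s + 1), ∑ χ : Fin M → Fin (s + 1), ((∑ u ∈ U, ind u c χ) - μ) ^ 2 ≤
      R ^ M * (m * (k * ℓ)) := by
    intro c
    have e1 : ∀ χ : Fin M → Fin (s + 1), ((∑ u ∈ U, ind u c χ) - μ) ^ 2 =
        ∑ u ∈ U, ∑ v ∈ U, (ind u c χ - q ^ (A u).card) * (ind v c χ - q ^ (A v).card) := by
      intro χ
      rw [hμ, ← Finset.sum_sub_distrib, sq, Finset.sum_mul_sum]
    simp_rw [e1]
    rw [Finset.sum_comm]
    have e2 : ∀ u ∈ U, ∑ χ : Fin M → Fin (s + 1), ∑ v ∈ U,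
        (ind u c χ - q ^ (A u).card) * (ind v c χ - q ^ (A v).card) ≤ R ^ M * (k * ℓ) := by
      intro u hu
      rw [Finset.sum_comm]
      have e3 : ∀ v ∈ U, ∑ χ : Fin M → Fin (s + 1),
          (ind u c χ - q ^ (A u).card) * (ind v c χ - q ^ (A v).card) ≤
          R ^ M * (∑ x ∈ A u, if x ∈ A v then (1 : ℝ) else 0) := by
        intro v _
        have e4 : ∀ χ : Fin M → Fin (s + 1),
            (ind u c χ - q ^ (A u).card) * (ind v c χ - q ^ (A v).card) =
            (if ∀ x ∈ A u ∪ A v, χ x = c then (1 : ℝ) else 0) - q ^ (A v).card * ind u c χ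
              - q ^ (A u).card * ind v c χ + q ^ (A u).card * q ^ (A v).card := by
          intro χ
          have e5 : (if ∀ x ∈ A u ∪ A v, χ x = c then (1 : ℝ) else 0) = ind u c χ * ind v c χ := by
            simp only [hind, Finset.mem_union]
            by_cases h1 : ∀ x ∈ A u, χ x = c
            · by_cases h2 : ∀ x ∈ A v, χ x = c
              · rw [if_pos h1, if_pos h2, if_pos, mul_one]
                rintro x (hx | hx)
                · exact h1 x hx
                · exact h2 x hx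
              · rw [if_neg h2, if_neg, mul_zero]
                intro h3; exact h2 fun x hx => h3 x (Or.inr hx)
            · rw [if_neg h1, if_neg, zero_mul]
              intro h3; exact h1 fun x hx => h3 x (Or.inl hx)
          rw [e5]; ring
        simp_rw [e4]
        rw [Finset.sum_add_distrib, Finset.sum_sub_distrib, Finset.sum_sub_distrib,
          ← Finset.mul_sum, ← Finset.mul_sum, card_const, card_const, card_const,
          Finset.sum_const, Finset.card_univ, Fintype.card_fun, Fintype.card_fin, Fintype.card_fin,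
          nsmul_eq_mul]
        push_cast
        rw [← hR, ← hq]
        have e6 : R ^ M * q ^ (A u ∪ A v).card - q ^ (A v).card * (R ^ M * q ^ (A u).card) -
            q ^ (A u).card * (R ^ M * q ^ (A v).card) + R ^ M * (q ^ (A u).card * q ^ (A v).card)
            = R ^ M * (q ^ (A u ∪ A v).card - q ^ (A u).card * q ^ (A v).card) := by ring
        rw [e6]
        apply mul_le_mul_of_nonneg_left _ (by positivity)
        by_cases hdis : Disjoint (A u) (A v)
        · rw [Finset.card_union_of_disjoint hdis, pow_add, sub_self]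
          apply Finset.sum_nonneg
          intro x _
          split_ifs <;> norm_num
        · obtain ⟨x, hx, hx'⟩ := Finset.not_disjoint_iff.1 hdis
          have e7 : (1 : ℝ) ≤ ∑ x ∈ A u, if x ∈ A v then (1 : ℝ) else 0 := by
            have := Finset.single_le_sum (f := fun x => if x ∈ A v then (1 : ℝ) else 0)
              (fun y _ => by split_ifs <;> norm_num) hx
            simpa [hx'] using this
          have e8 : q ^ (A u ∪ A v).card ≤ 1 := pow_le_one₀ hq0.le hq1
          have e9 : 0 ≤ q ^ (A u).card * q ^ (A v).card := by positivity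
          linarith
      refine (Finset.sum_le_sum e3).trans ?_
      rw [← Finset.mul_sum, Finset.sum_comm]
      apply mul_le_mul_of_nonneg_left _ (by positivity)
      have e10 : ∀ x ∈ A u, ∑ v ∈ U, (if x ∈ A v then (1 : ℝ) else 0) ≤ ℓ := by
        intro x _
        rw [Finset.sum_boole]
        exact_mod_cast hl x
      refine (Finset.sum_le_sum e10).trans ?_
      rw [Finset.sum_const, nsmul_eq_mul]
      exact mul_le_mul_of_nonneg_right (by exact_mod_cast hk u hu) (by positivity)
    refine (Finset.sum_le_sum e2).trans ?_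
    rw [Finset.sum_const, nsmul_eq_mul]
    apply le_of_eq; ring
  -- the lower bound
  have hμ1 : m * q ^ k ≤ μ := by
    rw [hμ, hm, ← nsmul_eq_mul, ← Finset.sum_const]
    exact Finset.sum_le_sum fun u hu => pow_le_pow_of_le_one hq0.le hq1 (hk u hu)
  have hlow : ∀ χ : Fin M → Fin (s + 1), (m * q ^ k / 2) ^ 2 ≤
      ∑ c, ((∑ u ∈ U, ind u c χ) - μ) ^ 2 := by
    intro χ
    refine le_trans ?_ (Finset.single_le_sum (f := fun c => ((∑ u ∈ U, ind u c χ) - μ) ^ 2)
      (fun c _ => sq_nonneg _) (Finset.mem_univ (c χ)))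
    have e1 : (∑ u ∈ U, ind u (c χ) χ) = ((U.filter fun u => ∀ x ∈ A u, χ x = c χ).card : ℝ) := by
      rw [hind]; dsimp only; rw [Finset.sum_boole]
    have e2 : ((U.filter fun u => ∀ x ∈ A u, χ x = c χ).card : ℝ) ≤ m * q ^ k / 2 := by
      have h1 := (hc χ).le
      have h2 : ((U.filter fun u => ∀ x ∈ A u, χ x = c χ).card : ℝ) ≤
          ((U.card / (2 * (s + 1) ^ k) : ℕ) : ℝ) := by exact_mod_cast h1
      refine h2.trans (Nat.cast_div_le.trans (le_of_eq ?_))
      push_cast
      rw [hm, hq, inv_pow, ← hR]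
      field_simp
    rw [e1]
    have e3 : 0 ≤ m * q ^ k / 2 := by positivity
    have e4 : m * q ^ k / 2 ≤ μ - ((U.filter fun u => ∀ x ∈ A u, χ x = c χ).card : ℝ) := by
      linarith
    nlinarith
  have htot : R ^ M * (m * q ^ k / 2) ^ 2 ≤ R * (R ^ M * (m * (k * ℓ))) := by
    calc R ^ M * (m * q ^ k / 2) ^ 2
        = ∑ _χ : Fin M → Fin (s + 1), (m * q ^ k / 2) ^ 2 := by
          rw [Finset.sum_const, Finset.card_univ, Fintype.card_fun, Fintype.card_fin,
            Fintype.card_fin, nsmul_eq_mul]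
          push_cast; rfl
      _ ≤ ∑ χ : Fin M → Fin (s + 1), ∑ c, ((∑ u ∈ U, ind u c χ) - μ) ^ 2 :=
          Finset.sum_le_sum fun χ _ => hlow χ
      _ = ∑ c, ∑ χ : Fin M → Fin (s + 1), ((∑ u ∈ U, ind u c χ) - μ) ^ 2 := Finset.sum_comm
      _ ≤ ∑ _c : Fin (s + 1), R ^ M * (m * (k * ℓ)) := Finset.sum_le_sum fun c _ => hsm c
      _ = R * (R ^ M * (m * (k * ℓ))) := by
          rw [Finset.sum_const, Finset.card_univ, Fintype.card_fin, nsmul_eq_mul]
          push_cast; rfl
  have hm0 : 0 < m := by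
    rw [hm]; exact_mod_cast lt_of_le_of_lt (Nat.zero_le _) h
  have hRM : 0 < R ^ M := by positivity
  have h6 : (m * q ^ k / 2) ^ 2 ≤ R * (m * (k * ℓ)) := by
    have : R ^ M * (m * q ^ k / 2) ^ 2 ≤ R ^ M * (R * (m * (k * ℓ))) := by
      refine htot.trans (le_of_eq ?_); ring
    exact le_of_mul_le_mul_left this hRM
  have h7 : m ≤ 4 * R ^ (2 * k + 1) * (k * ℓ) := by
    have e1 : (m * q ^ k / 2) ^ 2 = m * (m / (4 * R ^ (2 * k))) := by
      rw [hq, inv_pow]; field_simp; ring
    rw [e1] at h6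
    have e2 : m * (m / (4 * R ^ (2 * k))) ≤ m * (R * (k * ℓ)) := by
      refine h6.trans (le_of_eq ?_); ring
    have e3 := le_of_mul_le_mul_left e2 hm0
    rw [div_le_iff₀ (by positivity)] at e3
    refine e3.trans (le_of_eq ?_)
    rw [pow_succ]; ring
  have h8 : (U.card : ℝ) ≤ ((4 * (s + 1) ^ (2 * k + 1) * (k * ℓ) : ℕ) : ℝ) := by
    push_cast; rw [← hR]; exact h7
  have h9 : U.card ≤ 4 * (s + 1) ^ (2 * k + 1) * (k * ℓ) := by exact_mod_cast h8
  omega

end Pool.Agent.W945.Rk
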