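import Pool.Agent.W945.Rk.Comb

/-! # The classes of the plan -/

namespace Pool.Agent.W945.Rk

open Finset

variable {k s n L : ℕ} {ρ : ℕ → Fin n} {U : Finset (Fin n)}

/-- number of reads of `U` before `p` -/
def cnt (L : ℕ) (ρ : ℕ → Fin n) (U : Finset (Fin n)) (p : ℕ) : ℕ :=
  ((Finset.range (min p L)).filter fun q => ρ q ∈ U).card

theorem lab_eq (p : ℕ) : lab k s L ρ U p = cnt L ρ U p / (U.card / QQ k s) := rfl

theorem cnt_mono : Monotone (cnt L ρ U) := by
  intro p q h
  apply Finset.card_le_card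
  intro x hx
  simp only [Finset.mem_filter, Finset.mem_range] at hx ⊢
  exact ⟨by omega, hx.2⟩

theorem cnt_lt {p q : ℕ} (h : p < q) (hp : p < L) (hU : ρ p ∈ U) : cnt L ρ U p < cnt L ρ U q := by
  apply Finset.card_lt_card
  rw [Finset.ssubset_iff_of_subset]
  · refine ⟨p, ?_, ?_⟩
    · simp only [Finset.mem_filter, Finset.mem_range]; exact ⟨by omega, hU⟩
    · simp only [Finset.mem_filter, Finset.mem_range]; omega
  · intro x hx
    simp only [Finset.mem_filter, Finset.mem_range] at hx ⊢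
    exact ⟨by omega, hx.2⟩

theorem lab_mono : Monotone (lab k s L ρ U) := fun _ _ h => Nat.div_le_div_right (cnt_mono h)

theorem QQ_pos (hk : 1 ≤ k) : 0 < QQ k s := by unfold QQ; positivity

theorem RR_pos : 0 < RR k s := by unfold RR; positivity

theorem cnt_le (hr : ∀ u ∈ U, ((Finset.range L).filter fun p => ρ p = u).card ≤ k) (p : ℕ) :
    cnt L ρ U p ≤ k * U.card := by
  have h1 : cnt L ρ U p ≤ ((Finset.range L).filter fun q => ρ q ∈ U).card := by
    apply Finset.card_le_card
    intro x hx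
    simp only [Finset.mem_filter, Finset.mem_range] at hx ⊢
    exact ⟨by omega, hx.2⟩
  refine h1.trans ?_
  rw [Finset.card_eq_sum_card_fiberwise (f := ρ) (t := U)
    (by intro x hx; simp only [Finset.coe_filter, Finset.mem_range, Set.mem_ofPred_eq] at hx; exact hx.2)]
  rw [mul_comm, ← smul_eq_mul, ← Finset.sum_const]
  refine Finset.sum_le_sum fun u hu => le_trans (Finset.card_le_card ?_) (hr u hu)
  intro x hx
  simp only [Finset.mem_filter, Finset.mem_range] at hx ⊢
  exact ⟨hx.1.1, hx.2⟩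

theorem two_mul_div (hk : 1 ≤ k) (hm : QQ k s ≤ U.card) :
    U.card ≤ 2 * QQ k s * (U.card / QQ k s) := by
  have h0 := QQ_pos (s := s) hk
  have h1 : 1 ≤ U.card / QQ k s := (Nat.one_le_div_iff h0).2 hm
  have h2 := Nat.lt_mul_div_succ U.card h0
  nlinarith

theorem lab_le (hk : 1 ≤ k) (hm : QQ k s ≤ U.card)
    (hr : ∀ u ∈ U, ((Finset.range L).filter fun p => ρ p = u).card ≤ k) (p : ℕ) :
    lab k s L ρ U p ≤ BB k s := by
  rw [lab_eq]
  have h0 := QQ_pos (s := s) hk
  have h1 : 1 ≤ U.card / QQ k s := (Nat.one_le_div_iff h0).2 hm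
  rw [Nat.div_le_iff_le_mul_add_pred (by omega)]
  have h2 := two_mul_div hk hm
  have h3 := cnt_le hr p
  have h4 : k * U.card ≤ k * (2 * QQ k s * (U.card / QQ k s)) := Nat.mul_le_mul_left _ h2
  have h5 : U.card / QQ k s * BB k s = k * (2 * QQ k s * (U.card / QQ k s)) := by
    unfold BB; ring
  omega

/-- the blocks in which `u` is read -/
def Ab (k s L : ℕ) (ρ : ℕ → Fin n) (U : Finset (Fin n)) (u : Fin n) : Finset (Fin (BB k s + 1)) :=
  ((Finset.range L).filter fun p => ρ p = u).image fun p => Fin.ofNat (BB k s + 1) (lab k s L ρ U p)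

theorem cls_eq (χ : Fin (BB k s + 1) → Fin (s + 1)) (c : Fin (s + 1)) :
    cls k s L ρ U χ c = U.filter fun u => ∀ x ∈ Ab k s L ρ U u, χ x = c := by
  unfold cls Ab
  apply Finset.filter_congr
  intro u _
  simp only [Finset.mem_image, Finset.mem_filter, Finset.mem_range]
  constructor
  · rintro h x ⟨p, ⟨hp, hpu⟩, rfl⟩
    exact h p hp hpu
  · intro h p hp hpu
    exact h _ ⟨p, ⟨hp, hpu⟩, rfl⟩

theorem Ab_fiber (hk : 1 ≤ k) (hm : QQ k s ≤ U.card)
    (hr : ∀ u ∈ U, ((Finset.range L).filter fun p => ρ p = u).card ≤ k)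
    (x : Fin (BB k s + 1)) : (U.filter fun u => x ∈ Ab k s L ρ U u).card ≤ U.card / QQ k s := by
  have h0 := QQ_pos (s := s) hk
  set ℓ := U.card / QQ k s with hℓ
  have h1 : 1 ≤ ℓ := (Nat.one_le_div_iff h0).2 hm
  set Rd := (Finset.range L).filter fun p => ρ p ∈ U ∧ lab k s L ρ U p = x with hRd
  have h2 : (U.filter fun u => x ∈ Ab k s L ρ U u) ⊆ Rd.image ρ := by
    intro u hu
    rw [Finset.mem_filter, Ab, Finset.mem_image] at hu
    obtain ⟨huU, p, hp0, hx⟩ := hu
    rw [Finset.mem_filter, Finset.mem_range] at hp0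
    obtain ⟨hp, hpu⟩ := hp0
    rw [hRd, Finset.mem_image]
    simp only [Finset.mem_filter, Finset.mem_range]
    refine ⟨p, ⟨hp, by rwa [hpu], ?_⟩, hpu⟩
    rw [← hx]
    simp only [Fin.ofNat]
    rw [Nat.mod_eq_of_lt]
    exact Nat.lt_succ_of_le (lab_le hk hm hr p)
  refine (Finset.card_le_card h2).trans (Finset.card_image_le.trans ?_)
  have h3 : Rd.card ≤ (Finset.Ico (x * ℓ) (x * ℓ + ℓ)).card := by
    apply Finset.card_le_card_of_injOn (cnt L ρ U)
    · intro p hp
      simp only [hRd, Finset.coe_filter, Finset.mem_range, Set.mem_ofPred_eq] at hp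
      have h4 : cnt L ρ U p / ℓ = x := hp.2.2
      simp only [Finset.coe_Ico, Set.mem_Ico]
      constructor
      · rw [← h4]; exact Nat.div_mul_le_self _ _
      · have := Nat.lt_mul_div_succ (cnt L ρ U p) h1
        rw [h4] at this
        nlinarith
    · intro p hp q hq hpq
      simp only [hRd, Finset.coe_filter, Finset.mem_range, Set.mem_ofPred_eq] at hp hq
      rcases lt_trichotomy p q with h | h | h
      · have := cnt_lt h hp.1 hp.2.1 (U := U); omega
      · exact h
      · have := cnt_lt h hq.1 hq.2.1 (U := U); omega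
  rw [Nat.card_Ico] at h3
  omega

theorem find_getD {α : Type*} (l : List α) (P : α → Bool) (d : α) (h : ∃ x ∈ l, P x = true) :
    P ((l.find? P).getD d) = true := by
  cases hc : l.find? P with
  | none =>
    rw [List.find?_eq_none] at hc
    obtain ⟨x, hx, hx'⟩ := h
    exact absurd hx' (hc x hx)
  | some y => exact List.find?_some hc

theorem colr_spec (hk : 1 ≤ k) (hm : QQ k s ≤ U.card)
    (hr : ∀ u ∈ U, ((Finset.range L).filter fun p => ρ p = u).card ≤ k) (c : Fin (s + 1)) :
    U.card / RR k s ≤ (cls k s L ρ U (colr k s L ρ U) c).card := by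
  have h0 := QQ_pos (s := s) hk
  have hex : ∃ χ : Fin (BB k s + 1) → Fin (s + 1), ∀ c,
      U.card / RR k s ≤ (cls k s L ρ U χ c).card := by
    have h2 := second_moment U s (Ab k s L ρ U) (k := k) (ℓ := U.card / QQ k s)
      (fun u hu => Finset.card_image_le.trans (hr u hu)) (Ab_fiber hk hm hr) ?_
    · obtain ⟨χ, hχ⟩ := h2
      refine ⟨χ, fun c => ?_⟩
      rw [cls_eq]
      exact hχ c
    · have h3 : 4 * (s + 1) ^ (2 * k + 1) * (k * (U.card / QQ k s)) * 2 ≤ U.card := by
        have h4 : 4 * (s + 1) ^ (2 * k + 1) * (k * (U.card / QQ k s)) * 2 =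
            QQ k s * (U.card / QQ k s) := by
          unfold QQ; ring
        rw [h4]; exact Nat.mul_div_le _ _
      omega
  obtain ⟨χ, hχ⟩ := hex
  have h5 := find_getD (((List.finRange ((s + 1) ^ (BB k s + 1))).map fun a =>
    finFunctionFinEquiv.symm a)) (fun χ : Fin (BB k s + 1) → Fin (s + 1) =>
      decide (∀ c, U.card / RR k s ≤ (cls k s L ρ U χ c).card)) (fun _ => 0)
    ⟨χ, by
      rw [List.mem_map]
      exact ⟨finFunctionFinEquiv χ, List.mem_finRange _, by simp⟩, by simpa using hχ⟩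
  have h6 := of_decide_eq_true h5
  exact h6 c

theorem part_subset_cls (c : Fin (s + 1)) :
    part k s L ρ U c ⊆ cls k s L ρ U (colr k s L ρ U) c := by
  intro u hu
  rw [part, List.mem_toFinset] at hu
  have := List.mem_of_mem_take hu
  rwa [Finset.mem_sort] at this

theorem part_subset (c : Fin (s + 1)) : part k s L ρ U c ⊆ U :=
  (part_subset_cls c).trans (Finset.filter_subset _ _)

theorem part_reads {c : Fin (s + 1)} {u : Fin n} (hu : u ∈ part k s L ρ U c) {p : ℕ} (hp : p < L)
    (hpu : ρ p = u) : colr k s L ρ U (Fin.ofNat (BB k s + 1) (lab k s L ρ U p)) = c := by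
  have := part_subset_cls c hu
  rw [cls, Finset.mem_filter] at this
  exact this.2 p (Finset.mem_range.2 hp) hpu

theorem part_card (hk : 1 ≤ k) (hm : QQ k s ≤ U.card)
    (hr : ∀ u ∈ U, ((Finset.range L).filter fun p => ρ p = u).card ≤ k) (c : Fin (s + 1)) :
    (part k s L ρ U c).card = U.card / RR k s := by
  rw [part, List.toFinset_card_of_nodup, List.length_take, Finset.length_sort]
  · exact min_eq_left (colr_spec hk hm hr c)
  · exact (Finset.sort_nodup _ _).sublist (List.take_sublist _ _)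

theorem part_disjoint (hread : ∀ u ∈ U, ∃ p < L, ρ p = u) {c c' : Fin (s + 1)} {u : Fin n}
    (hu : u ∈ part k s L ρ U c) (hu' : u ∈ part k s L ρ U c') : c = c' := by
  obtain ⟨p, hp, hpu⟩ := hread u (part_subset c hu)
  rw [← part_reads hu hp hpu, ← part_reads hu' hp hpu]

theorem parts_subset : parts k s L ρ U ⊆ U := by
  intro u hu
  simp only [parts, Finset.mem_biUnion, Finset.mem_univ, true_and] at hu
  obtain ⟨c, hc⟩ := hu
  exact part_subset c hc

theorem parts_card (hk : 1 ≤ k) (hm : QQ k s ≤ U.card)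
    (hr : ∀ u ∈ U, ((Finset.range L).filter fun p => ρ p = u).card ≤ k)
    (hread : ∀ u ∈ U, ∃ p < L, ρ p = u) :
    (parts k s L ρ U).card = (s + 1) * (U.card / RR k s) := by
  rw [parts, Finset.card_biUnion]
  · simp [part_card hk hm hr]
  · intro c _ c' _ hcc
    rw [Function.onFun, Finset.disjoint_left]
    intro u hu hu'
    exact hcc (part_disjoint hread hu hu')

theorem RR_le_QQ (hk : 1 ≤ k) : 2 * RR k s ≤ QQ k s := by
  unfold RR QQ
  have h1 : (s + 1) ^ k ≤ (s + 1) ^ (2 * k + 1) := Nat.pow_le_pow_right (by omega) (by omega)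
  have h2 : 1 * (s + 1) ^ (2 * k + 1) ≤ k * (s + 1) ^ (2 * k + 1) := Nat.mul_le_mul_right _ hk
  have h3 : 8 * k * (s + 1) ^ (2 * k + 1) = 8 * (k * (s + 1) ^ (2 * k + 1)) := by ring
  rw [h3]
  omega

theorem s_le_RR (hk : 1 ≤ k) : 2 * (s + 1) ≤ RR k s := by
  unfold RR
  have h1 : (s + 1) ^ 1 ≤ (s + 1) ^ k := Nat.pow_le_pow_right (by omega) hk
  rw [pow_one] at h1
  omega

theorem Stp_of (hk : 1 ≤ k) {m : ℕ} (hm : QQ k s ≤ m) : Stp k s m := by
  have h0 := QQ_pos (s := s) hk
  have h1 := RR_le_QQ (s := s) hk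
  have h2 := s_le_RR (s := s) hk
  have h3 : 1 ≤ m / RR k s := (Nat.one_le_div_iff RR_pos).2 (by omega)
  refine ⟨hm, Nat.div_lt_self (by omega) (by omega), ?_⟩
  have : 1 ≤ (s + 1) * (m / RR k s) := Nat.one_le_iff_ne_zero.2 (by positivity)
  omega

end Pool.Agent.W945.Rk
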