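import Pool.Agent.W945.Rk.Main2

/-! # The explicit points hit all programs -/

namespace Pool.Agent.W945.Rk
open MvPolynomial

noncomputable section

variable {k s n F w d L : ℕ} {ρ : ℕ → Fin n}

theorem one_le_Lam0 [NeZero w] (hF : 0 < F) (hn : 0 < n) : 1 ≤ Lam0 k s F w d L n := by
  have hw : 0 < w := Nat.pos_of_ne_zero (NeZero.ne w)
  unfold Lam0 Lam
  have : 1 ≤ (s + 2) * (F * n) * ((w * w) ^ (BB k s * Nat.log (RR k s) n + 1)) ^ 2 :=
    Nat.one_le_iff_ne_zero.2 (by positivity)
  omega

theorem mem_heavy {u : Fin n} : u ∈ heavy k L ρ ↔ k < reads L ρ u := by simp [heavy]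

theorem mem_light {u : Fin n} : u ∈ light k L ρ ↔ 1 ≤ reads L ρ u ∧ reads L ρ u ≤ k := by
  simp [light]

theorem light_card_le : (light k L ρ).card ≤ n := by
  simpa using Finset.card_le_univ (light k L ρ)

theorem rank_lt {U : Finset (Fin n)} {u : Fin n} (hu : u ∈ U) :
    (U.filter (· < u)).card < U.card := by
  apply Finset.card_lt_card
  rw [Finset.ssubset_iff_of_subset (Finset.filter_subset _ _)]
  exact ⟨u, hu, by simp⟩

theorem rank_inj {U : Finset (Fin n)} : Set.InjOn (fun u => (U.filter (· < u)).card) U := by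
  have hlt : ∀ u ∈ U, ∀ v, u < v → (U.filter (· < u)).card < (U.filter (· < v)).card := by
    intro u hu v huv
    apply Finset.card_lt_card
    rw [Finset.ssubset_iff_of_subset]
    · exact ⟨u, by simp [hu, huv], by simp⟩
    · intro x hx
      simp only [Finset.mem_filter] at hx ⊢
      exact ⟨hx.1, hx.2.trans huv⟩
  intro u hu v hv huv
  rcases lt_trichotomy u v with h | h | h
  · have := hlt u hu v h; simp only at huv; omega
  · exact h
  · have := hlt v hv u h; simp only at huv; omega

/-- For a suitable choice the substitution is injective on the spaces of the programs. -/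
theorem exists_good [NeZero w] (hk : 1 ≤ k) (hF : 0 < F) (hn : 0 < n) {K : Type} [Field K]
    {Mt : Fin F → ℕ → Matrix (Fin w) (Fin w) (MvPolynomial (Fin n) K)}
    (hsup : ∀ i, ∀ p < L, ∀ a b, Mt i p a b ∈ Sup K {ρ p})
    (hdeg : ∀ i, ∀ p < L, ∀ a b, (Mt i p a b).totalDegree ≤ d) :
    ∃ ch ∈ choices k s (Lam0 k s F w d L n) (light k L ρ).card,
      (∀ i, Good (expo k s F w d L ρ ch) (Sp L (Mt i) (fun _ => 0) Set.univ 0)) ∧
      (∀ u i, T2 k s L ρ ≤ i → expo k s F w d L ρ ch u i = 0) ∧
      (∀ u i, i < T1 k s L ρ → expo k s F w d L ρ ch u i ≤ XX k s F w d L n) ∧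
      (∀ u i, T1 k s L ρ ≤ i → expo k s F w d L ρ ch u i ≤ 1) := by
  have hpos : ∀ u ∈ light k L ρ, ∃ p < L, ρ p = u := by
    intro u hu
    have h1 := (mem_light.1 hu).1
    obtain ⟨p, hp⟩ := Finset.card_pos.1 h1
    simp only [Finset.mem_filter, Finset.mem_range] at hp
    exact ⟨p, hp⟩
  have hsup1 : ∀ i, ∀ p < L, ∀ a b, ((Mt i p).map (bc1 (light k L ρ : Set (Fin n)))) a b ∈
      Sup (F1 (Fin n) K) ({ρ p} ∩ (light k L ρ : Set (Fin n))) := by
    intro i p hp a b
    exact bc_Sup _ _ (hsup i p hp a b)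
  obtain ⟨ch, hch, H⟩ := stmt (k := k) (s := s) (n := n) (L := L) (w := w) (d := d)
    (N0 := BB k s * Nat.log (RR k s) n + 1) (B0 := F * n) (ρ := ρ) hk (light k L ρ).card (Fin F)
    (fun _ => F1 (Fin n) K) (fun i p => (Mt i p).map (bc1 (light k L ρ : Set (Fin n))))
    (fun _ => light k L ρ) (fun _ _ => 0) (fun _ => Set.univ) 0 (fun _ => rfl)
    (fun _ => hpos) (fun _ u hu => (mem_light.1 hu).2) (fun _ _ _ _ => le_rfl) (fun _ _ => le_rfl)
    (fun i p hp _ a b => hsup1 i p hp a b)
    (fun i p hp a b => (bc_deg _ _ _).trans (hdeg i p hp a b))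
    (by
      rw [Fintype.card_fin]
      exact Nat.mul_le_mul_left _ light_card_le)
    (by
      have := Nat.mul_le_mul_left (BB k s) (Nat.log_mono_right (b := RR k s)
        (light_card_le (k := k) (L := L) (ρ := ρ)))
      omega)
  have hΛ : Lam s (F * n) w d L (BB k s * Nat.log (RR k s) n + 1) = Lam0 k s F w d L n := rfl
  rw [hΛ] at hch H
  obtain ⟨_, H2, H3⟩ := H ⟨0, hF⟩
  refine ⟨ch, hch, fun i => ?_, ?_, ?_, ?_⟩
  · refine Good.rounds (V := (light k L ρ : Set (Fin n)))
      (e₁ := gen k s L ρ (Lam0 k s F w d L n) ch (light k L ρ))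
      (e₂ := fun u => if u ∈ heavy k L ρ then
        Finsupp.single ((heavy k L ρ).filter (· < u)).card 1 else 0)
      (T := T1 k s L ρ) H2 (fun u hu => gen_zero _ _ _ hu) ?_ ?_
      (S₁ := Sp L (fun p => (Mt i p).map (bc1 (light k L ρ : Set (Fin n)))) (fun _ => 0) Set.univ 0)
      (S₂ := Sp L (fun p => (Mt i p).map (bc2 (light k L ρ : Set (Fin n))
        (gen k s L ρ (Lam0 k s F w d L n) ch (light k L ρ)))) (fun _ => 0) Set.univ 0)
      (fun f hf => Sp_bc _ _ _ hf) (fun f hf => Sp_bc _ _ _ hf) (H i).1 ?_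
    · intro u hu
      rw [if_neg]
      rw [mem_heavy]
      have := (mem_light.1 hu).2
      omega
    · intro u
      rw [expo]
      congr 1
      split_ifs
      · rw [Finsupp.mapDomain_single]
      · rw [Finsupp.mapDomain_zero]
    · refine Good.of_injOn (V := (heavy k L ρ : Set (Fin n))) rank_inj
        (fun u hu => if_pos (Finset.mem_coe.1 hu)) ?_
      apply Sp_le_Sup
      intro p hp _ a b
      refine Sup_mono ?_ (bc_Sup (V := (light k L ρ : Set (Fin n))ᶜ) _ _ (hsup i p hp a b))
      rintro u ⟨hu1, hu2⟩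
      have h3 : u = ρ p := hu1
      have h4 : ¬ (1 ≤ reads L ρ u ∧ reads L ρ u ≤ k) := fun h => hu2 (mem_light.2 h)
      have h5 : 1 ≤ reads L ρ u := by
        apply Finset.card_pos.2
        exact ⟨p, by simp [hp, h3]⟩
      exact mem_heavy.2 (by omega)
  · intro u i hi
    rw [T2] at hi
    rw [expo, Finsupp.add_apply, H2 u i (le_trans (Nat.le_add_right _ _) hi), zero_add]
    split_ifs with hu
    · rw [Finsupp.single_apply, if_neg]
      have := rank_lt hu
      omega
    · rfl
  · intro u i hi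
    have h3 := H3 u i
    have h4 : PP (Lam0 k s F w d L n) (Nat.log (RR k s) (light k L ρ).card) ≤ XX k s F w d L n :=
      PP_mono (one_le_Lam0 hF hn) (Nat.log_mono_right light_card_le)
    rw [expo, Finsupp.add_apply]
    have h5 : (if u ∈ heavy k L ρ then
      Finsupp.single (((heavy k L ρ).filter (· < u)).card + T1 k s L ρ) 1 else 0 : ℕ →₀ ℕ) i
        = 0 := by
      split_ifs
      · rw [Finsupp.single_apply, if_neg (by omega)]
      · rfl
    rw [h5, add_zero]
    exact (h3.le).trans h4
  · intro u i hi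
    rw [expo, Finsupp.add_apply, H2 u i hi, zero_add]
    split_ifs
    · rw [Finsupp.single_apply]; split_ifs <;> omega
    · simp

theorem Program.exists {K : Type} [Field K] {f : MvPolynomial (Fin n) K}
    (hf : Program K w d L ρ f) : ∃ Mt : ℕ → Matrix (Fin w) (Fin w) (MvPolynomial (Fin n) K),
    (∀ p < L, ∀ a b, Mt p a b ∈ Sup K {ρ p}) ∧ (∀ p < L, ∀ a b, (Mt p a b).totalDegree ≤ d) ∧
      f ∈ Sp L Mt (fun _ => 0) Set.univ 0 := by
  obtain ⟨M, c, hM, hf⟩ := hf
  refine ⟨fun p => (M p).map fun q => Polynomial.aeval (X (ρ p)) q, ?_, ?_, ?_⟩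
  · intro p _ a b
    have h1 : (X (ρ p) : MvPolynomial (Fin n) K) ∈ supported K ({ρ p} : Set (Fin n)) :=
      X_mem_supported.2 rfl
    have h2 : Polynomial.aeval (X (ρ p) : MvPolynomial (Fin n) K) (M p a b) =
        ((Polynomial.aeval (⟨X (ρ p), h1⟩ : supported K ({ρ p} : Set (Fin n))) (M p a b) :
          supported K ({ρ p} : Set (Fin n))) : MvPolynomial (Fin n) K) := by
      have := Polynomial.aeval_algHom_apply (supported K ({ρ p} : Set (Fin n))).val
        ⟨X (ρ p), h1⟩ (M p a b)
      simp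
    show Polynomial.aeval (X (ρ p) : MvPolynomial (Fin n) K) (M p a b) ∈ Sup K {ρ p}
    rw [h2]
    exact Subtype.mem _
  · intro p _ a b
    show (Polynomial.aeval (X (ρ p) : MvPolynomial (Fin n) K) (M p a b)).totalDegree ≤ d
    rw [Polynomial.aeval_eq_sum_range]
    refine (totalDegree_finsetSum _ _).trans (Finset.sup_le fun i hi => ?_)
    refine (totalDegree_smul_le _ _).trans ((totalDegree_pow _ _).trans ?_)
    rw [totalDegree_X, mul_one]
    exact (Nat.lt_succ_iff.1 (Finset.mem_range.1 hi)).trans (hM p a b)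
  · rw [Sp, zero_add, Finset.range_one, Finset.prod_singleton, hf]
    refine Submodule.sum_mem _ fun a _ => Submodule.sum_mem _ fun b _ => ?_
    rw [← MvPolynomial.smul_eq_C_mul]
    apply Submodule.smul_mem
    have h1 := entry_mem_En (L := L)
      (Mt := fun p => (M p).map fun q => Polynomial.aeval (X (ρ p) : MvPolynomial (Fin n) K) q)
      (Set.univ ∩ {p : ℕ | 0 = 0}) a b
    have h2 : Pr L (fun p => (M p).map fun q => Polynomial.aeval (X (ρ p) : MvPolynomial (Fin n) K) q)
        (Set.univ ∩ {p : ℕ | 0 = 0}) = ((List.range L).map fun p => (M p).map fun q =>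
          Polynomial.aeval (X (ρ p) : MvPolynomial (Fin n) K) q).prod := by
      unfold Pr
      congr 1
      apply List.map_congr_left
      intro p _
      rw [if_pos (by simp)]
    rw [h2] at h1
    exact h1

theorem Program.totalDegree_le {K : Type} [Field K] {f : MvPolynomial (Fin n) K}
    (hf : Program K w d L ρ f) : f.totalDegree ≤ d * L := by
  obtain ⟨Mt, _, hdeg, hf⟩ := hf.exists
  have := Sp_deg hdeg f hf
  simpa using this

theorem Divides.ne_zero {K : Type} [Field K] {f : MvPolynomial (Fin n) K}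
    (hf : Divides K F w d L ρ f) : f ≠ 0 := by
  obtain ⟨g, hg, hfg⟩ := hf
  rintro rfl
  exact (Finset.prod_ne_zero_iff.2 fun i _ => (hg i).2) (zero_dvd_iff.1 hfg)

theorem Divides.totalDegree_le {K : Type} [Field K] {f : MvPolynomial (Fin n) K}
    (hf : Divides K F w d L ρ f) : f.totalDegree ≤ F * (d * L) := by
  obtain ⟨g, hg, hfg⟩ := hf
  refine (totalDegree_le_of_dvd_of_isDomain hfg
    (Finset.prod_ne_zero_iff.2 fun i _ => (hg i).2)).trans ?_
  refine (totalDegree_finsetProd _ _).trans ?_
  refine (Finset.sum_le_card_nsmul _ _ (d * L) fun i _ => (hg i).1.totalDegree_le).trans ?_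
  simp

/-- **The points hit all nonzero programs, and the divisors of products of programs.** -/
theorem hits (hk : 1 ≤ k) (hF : 0 < F) {K : Type} [Field K] [CharZero K]
    {f : MvPolynomial (Fin n) K} (hf : Divides K F w d L ρ f) :
    ∃ x ∈ points k s F w d L ρ, eval (fun u => (x u : K)) f ≠ 0 := by
  have hfd := hf.totalDegree_le
  have h0 := hf.ne_zero
  have hw : w ≠ 0 := by
    rintro rfl
    obtain ⟨g, hg, _⟩ := hf
    obtain ⟨⟨M, c, _, hf⟩, h1⟩ := hg ⟨0, hF⟩
    apply h1
    rw [hf]; simp
  have : NeZero w := ⟨hw⟩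
  rcases Nat.eq_zero_or_pos n with hn | hn
  · -- no variables: f is a constant
    subst hn
    have hne : ∀ m, (choices k s (Lam0 k s F w d L 0) m).Nonempty := by
      intro m
      induction m using Nat.strong_induction_on with
      | _ m ih2 =>
        rw [choices]
        split_ifs with h
        · apply Finset.Nonempty.image
          rw [Finset.nonempty_product, Finset.nonempty_product]
          refine ⟨ih2 _ h.2.1, ⟨0, ?_⟩, ih2 _ h.2.2⟩
          rw [Finset.mem_range]
          have := PP_pos (Λ := Lam0 k s F w d L 0) (Nat.log (RR k s) m)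
          omega
        · exact Finset.singleton_nonempty _
    obtain ⟨ch, hch⟩ := hne (light k L ρ).card
    refine ⟨_, Finset.mem_biUnion.2 ⟨ch, hch, Finset.mem_image.2
      ⟨fun _ => 0, Fintype.mem_piFinset.2 fun i => ?_, rfl⟩⟩, ?_⟩
    · rw [Finset.mem_range, gr]; split_ifs <;> omega
    · rw [MvPolynomial.eq_C_of_isEmpty f, eval_C]
      intro h1
      apply h0
      rw [MvPolynomial.eq_C_of_isEmpty f, h1, C_0]
  have hf' := hf
  obtain ⟨g, hgP, hfg⟩ := hf'
  choose Mt hsup hdeg hgS using fun i => (hgP i).1.exists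
  obtain ⟨ch, hch, hg, hT, hX1, hX2⟩ := exists_good (k := k) (s := s) (d := d) hk hF hn hsup hdeg
  have h1 : Th K (expo k s F w d L ρ ch) f ≠ 0 := by
    intro h
    have h2 := map_dvd (Th K (expo k s F w d L ρ ch)) hfg
    rw [h, zero_dvd_iff, map_prod] at h2
    refine (Finset.prod_ne_zero_iff.2 fun i _ => ?_) h2
    exact fun h3 => (hgP i).2 (hg i (g i) (hgS i) h3)
  set e' : Fin n → (Fin (T2 k s L ρ) →₀ ℕ) := fun u =>
    Finsupp.equivFunOnFinite.symm fun i => expo k s F w d L ρ ch u i with he'
  have he'a : ∀ u i, e' u i = expo k s F w d L ρ ch u i := fun u i => rfl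
  have hmap : ∀ u, (e' u).mapDomain (Fin.val : Fin (T2 k s L ρ) → ℕ) = expo k s F w d L ρ ch u := by
    intro u
    ext i
    by_cases hi : i < T2 k s L ρ
    · have := Finsupp.mapDomain_apply (M := ℕ) (Fin.val_injective (n := T2 k s L ρ)) (e' u) ⟨i, hi⟩
      simpa [he'a] using this
    · rw [hT u i (not_lt.1 hi)]
      apply Finsupp.mapDomain_of_notMem_range
      rintro ⟨j, hj⟩
      exact hi (hj ▸ j.2)
  have h2 : Th K e' f ≠ 0 := by
    intro h3
    apply h1
    have h4 : Th K (expo k s F w d L ρ ch) = (rename Fin.val).comp (Th K e') := by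
      apply MvPolynomial.algHom_ext
      intro u
      simp only [Th, aeval_X, AlgHom.comp_apply, rename_monomial, hmap]
    rw [h4, AlgHom.comp_apply, h3, map_zero]
  -- the grid
  have h5 : ∃ t : Fin (T2 k s L ρ) → ℕ, (∀ i, t i < gr k s F w d L ρ i) ∧
      eval (fun i => (t i : K)) (Th K e' f) ≠ 0 := by
    classical
    by_contra hcon
    push Not at hcon
    apply h2
    apply eq_zero_of_eval_zero_at_prod_finset _
      (fun i : Fin (T2 k s L ρ) => (Finset.range (gr k s F w d L ρ i)).image (Nat.cast : ℕ → K))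
    · intro i
      rw [Finset.card_image_of_injective _ Nat.cast_injective, Finset.card_range]
      have h6 : (Th K e' f).degreeOf i < gr k s F w d L ρ i := by
        rw [degreeOf_lt_iff (by rw [gr]; split_ifs <;> omega)]
        intro b hb
        rw [mem_support_iff] at hb
        rw [gr]
        split_ifs with hi
        · have := lead_bound hb hfd i fun u => by rw [he'a]; exact hX1 u i hi
          omega
        · have := lead_bound hb hfd i fun u => by rw [he'a]; exact hX2 u i (not_lt.1 hi)
          omega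
      exact h6
    · intro x hx
      have : ∀ i : Fin (T2 k s L ρ), ∃ t : ℕ, t < gr k s F w d L ρ i ∧ (t : K) = x i := by
        intro i
        have := hx i
        simp only [Finset.mem_image, Finset.mem_range] at this
        exact this
      choose t ht htx using this
      have h7 := hcon t ht
      have h8 : x = fun i => ((t i : ℕ) : K) := funext fun i => (htx i).symm
      rw [h8]
      exact h7
  obtain ⟨t, ht, hte⟩ := h5
  refine ⟨_, Finset.mem_biUnion.2 ⟨ch, hch, Finset.mem_image.2
      ⟨t, Fintype.mem_piFinset.2 fun i => Finset.mem_range.2 (ht i), rfl⟩⟩, ?_⟩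
  intro h8
  apply hte
  have h9 : (eval (fun i => (t i : K))).comp (Th K e').toRingHom =
      eval (fun u => ((∏ i : Fin (T2 k s L ρ), (t i : ℤ) ^ (expo k s F w d L ρ ch u i) : ℤ) : K)) := by
    apply MvPolynomial.ringHom_ext
    · intro r
      simp [Th, MvPolynomial.algebraMap_eq]
    · intro u
      simp only [Th, RingHom.comp_apply, AlgHom.toRingHom_eq_coe, RingHom.coe_coe, aeval_X,
        eval_monomial, one_mul, eval_X]
      rw [Finsupp.prod_fintype _ _ (by simp)]
      push_cast
      rfl
  have h10 := DFunLike.congr_fun h9 f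
  rw [h8] at h10
  exact h10

end

end Pool.Agent.W945.Rk
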