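import Pool.Agent.W945.Rk.Alg2
import Pool.Agent.W945.Rk.Comb2

/-! # The substitutions are injective for suitable choices -/

namespace Pool.Agent.W945.Rk
open MvPolynomial

/-! ## Preliminaries -/

section pre
open scoped Classical
variable {ι : Type} {K : Type} [Field K]

theorem Th_congr {τ : Type} {V : Set ι} {e e' : ι → (τ →₀ ℕ)} (h : ∀ u ∈ V, e u = e' u)
    {f : MvPolynomial ι K} (hf : f ∈ Sup K V) : Th K e f = Th K e' f := by
  obtain ⟨g, rfl⟩ := exists_rename hf
  have h2 : (Th K e).comp (rename (Subtype.val : V → ι)) =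
      (Th K e').comp (rename (Subtype.val : V → ι)) := by
    apply MvPolynomial.algHom_ext
    intro u
    simp [Th, h u.1 u.2]
  exact DFunLike.congr_fun h2 g

theorem Good.congr {τ : Type} {V : Set ι} {e e' : ι → (τ →₀ ℕ)} (h : ∀ u ∈ V, e u = e' u)
    {S : Submodule K (MvPolynomial ι K)} (hS : S ≤ Sup K V) (hg : Good e S) : Good e' S := by
  intro f hf h0
  apply hg f hf
  rw [Th_congr h (hS hf)]
  exact h0

theorem Good.of_injOn {V : Set ι} {f : ι → ℕ} (hf : Set.InjOn f V) {e : ι → (ℕ →₀ ℕ)}
    (he : ∀ u ∈ V, e u = Finsupp.single (f u) 1) {S : Submodule K (MvPolynomial ι K)}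
    (hS : S ≤ Sup K V) : Good e S := by
  intro g hg h0
  obtain ⟨g', rfl⟩ := exists_rename (hS hg)
  have h2 : (Th K e).comp (rename (Subtype.val : V → ι)) =
      rename (fun u : V => f u) := by
    apply MvPolynomial.algHom_ext
    intro u
    simp only [AlgHom.comp_apply, rename_X, Th, aeval_X, he u.1 u.2]
    rfl
  have h3 : rename (fun u : V => f u) g' = 0 := by
    rw [← h2]; exact h0
  have h4 : Function.Injective fun u : V => f u := fun a b h => Subtype.ext (hf a.2 b.2 h)
  have h5 := rename_injective _ h4 (h3.trans (map_zero _).symm)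
  rw [h5, map_zero]

theorem rename_mem_Sup {W : Set ι} (p : MvPolynomial W K) :
    rename (Subtype.val : W → ι) p ∈ Sup K W := by
  have : rename (Subtype.val : W → ι) p ∈
      (rename (Subtype.val : W → ι) : MvPolynomial W K →ₐ[K] MvPolynomial ι K).range := ⟨p, rfl⟩
  rw [← supported_eq_range_rename] at this
  exact this

theorem bc_Sup {V W : Set ι} {F : Type} [Field F] (j : K →+* F) (y : ι → F)
    {f : MvPolynomial ι K} (hf : f ∈ Sup K W) : bc V j y f ∈ Sup F (W ∩ V) := by
  obtain ⟨g, rfl⟩ := exists_rename hf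
  induction g using MvPolynomial.induction_on with
  | C a =>
    rw [rename_C]
    have : bc V j y (C a) = algebraMap F _ (j a) := by simp [bc, MvPolynomial.algebraMap_eq]
    rw [this]
    exact (supported F (W ∩ V)).algebraMap_mem _
  | add p q hp hq =>
    rw [map_add, map_add]
    exact Submodule.add_mem _ (hp (rename_mem_Sup p)) (hq (rename_mem_Sup q))
  | mul_X p u hp =>
    rw [map_mul, map_mul, rename_X]
    refine (supported F (W ∩ V)).mul_mem (hp (rename_mem_Sup p)) ?_
    · simp only [bc, coe_eval₂Hom, eval₂_X]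
      split_ifs with h
      · exact X_mem_supported.2 ⟨u.2, h⟩
      · exact (supported F (W ∩ V)).algebraMap_mem _

theorem bc_deg {V : Set ι} {F : Type} [Field F] (j : K →+* F) (y : ι → F)
    (f : MvPolynomial ι K) : (bc V j y f).totalDegree ≤ f.totalDegree := by
  conv_lhs => rw [f.as_sum, map_sum]
  refine (totalDegree_finsetSum _ _).trans (Finset.sup_le fun d hd => ?_)
  refine le_trans ?_ (le_totalDegree hd)
  rw [bc, coe_eval₂Hom, eval₂_monomial]
  refine (totalDegree_mul _ _).trans ?_
  simp only [RingHom.comp_apply, totalDegree_C, zero_add]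
  rw [Finsupp.prod]
  refine (totalDegree_finsetProd _ _).trans ?_
  rw [Finsupp.sum]
  refine Finset.sum_le_sum fun u _ => ?_
  refine (totalDegree_pow _ _).trans ?_
  have : (if u ∈ V then X u else C (y u) : MvPolynomial ι F).totalDegree ≤ 1 := by
    split_ifs
    · rw [totalDegree_X]
    · simp
  calc d u * _ ≤ d u * 1 := Nat.mul_le_mul_left _ this
    _ = d u := mul_one _

end pre

/-! ## The generator: bounds -/

section gen
variable {k s n L : ℕ} {ρ : ℕ → Fin n} {Λ : ℕ}

theorem gen_zero (ch : Ch) : ∀ (U : Finset (Fin n)) (u : Fin n), u ∉ U →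
    gen k s L ρ Λ ch U u = 0 := by
  induction ch with
  | leaf =>
    intro U u hu
    simp [gen, hu]
  | node a κ b iha ihb =>
    intro U u hu
    rw [gen, ihb _ _ (fun h => hu (Finset.mem_sdiff.1 h).1), Finsupp.mapDomain_zero, add_zero]
    refine Finset.sum_eq_zero fun c _ => ?_
    rw [if_neg]
    exact fun h => hu (part_subset c h)

theorem np_prime (x : ℕ) : (np x).Prime := (Nat.find_spec (p := fun p => p.Prime ∧ x < p) _).1

theorem lt_np (x : ℕ) : x < np x := (Nat.find_spec (p := fun p => p.Prime ∧ x < p) _).2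

theorem np_le {x : ℕ} (hx : x ≠ 0) : np x ≤ 2 * x := by
  obtain ⟨p, hp, h1, h2⟩ := Nat.exists_prime_lt_and_le_two_mul x hx
  exact (Nat.find_min' _ ⟨hp, h1⟩).trans h2

theorem PP_pos (h : ℕ) : 2 ≤ PP Λ h := by
  cases h with
  | zero => exact le_rfl
  | succ h => exact (np_prime _).two_le

theorem PP_mono (hΛ : 1 ≤ Λ) : Monotone (PP Λ) := by
  apply monotone_nat_of_le_succ
  intro h
  have := lt_np (Λ * PP Λ h)
  have h2 : 1 * PP Λ h ≤ Λ * PP Λ h := Nat.mul_le_mul_right _ hΛ
  rw [PP]; omega

theorem TT_le (hk : 1 ≤ k) : ∀ m, 1 ≤ m → TT k s m + (s + 1) ≤ (s + 2) * m := by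
  intro m
  induction m using Nat.strong_induction_on with
  | _ m ih =>
    intro hm
    rw [TT]
    split_ifs with h
    · have h0 := QQ_pos (s := s) hk
      have h1 := RR_le_QQ (s := s) hk
      have h2 := s_le_RR (s := s) hk
      have h3 : 1 ≤ m / RR k s := (Nat.one_le_div_iff RR_pos).2 (by have := h.1; omega)
      have h4 : m / RR k s * RR k s ≤ m := Nat.div_mul_le_self _ _
      have h5 : m / RR k s * (2 * (s + 1)) ≤ m / RR k s * RR k s := Nat.mul_le_mul_left _ h2
      have h6 : m / RR k s * (2 * (s + 1)) = 2 * ((s + 1) * (m / RR k s)) := by ring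
      have h8 : 1 ≤ (s + 1) * (m / RR k s) := Nat.one_le_iff_ne_zero.2 (by positivity)
      have h7 := ih _ h.2.1 h3
      have h9 := ih _ h.2.2 (by omega)
      have h10 : m / RR k s ≤ (s + 1) * (m / RR k s) := Nat.le_mul_of_pos_left _ (by omega)
      have h11 : (s + 2) * (m / RR k s) + (s + 2) * (m - (s + 1) * (m / RR k s)) ≤ (s + 2) * m := by
        rw [← Nat.mul_add]
        exact Nat.mul_le_mul_left _ (by omega)
      omega
    · nlinarith

theorem TT_zero (hk : 1 ≤ k) : TT k s 0 = 0 := by
  rw [TT, dif_neg]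
  intro h
  have := QQ_pos (s := s) hk
  have := h.1
  omega

end gen

end Pool.Agent.W945.Rk
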