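import Mathlib

/-! # Monomial substitutions, and merging two of them on disjoint sets of variables -/

namespace Pool.Agent.W945.Rk
open MvPolynomial

noncomputable section
open scoped Classical

variable {ι τ τ' : Type} {K : Type} [Field K]

/-- The substitution `x_u ↦ t^(e u)`. -/
def Th (K : Type) [Field K] (e : ι → (τ →₀ ℕ)) : MvPolynomial ι K →ₐ[K] MvPolynomial τ K :=
  aeval fun u => monomial (e u) 1

/-- The substitution `x_u ↦ t^(e u)` is injective on the space `S`. -/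
def Good (e : ι → (τ →₀ ℕ)) (S : Submodule K (MvPolynomial ι K)) : Prop :=
  ∀ f ∈ S, Th K e f = 0 → f = 0

/-- The polynomials in the variables in `V`, as a subspace. -/
def Sup (K : Type) [Field K] (V : Set ι) : Submodule K (MvPolynomial ι K) :=
  Subalgebra.toSubmodule (supported K V)

theorem mem_Sup {V : Set ι} {f : MvPolynomial ι K} : f ∈ Sup K V ↔ f ∈ supported K V := Iff.rfl

theorem Sup_mono {V W : Set ι} (h : V ⊆ W) : Sup K V ≤ Sup K W := by
  intro f hf
  exact supported_mono h hf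

theorem Sup_mul {V : Set ι} {S T : Submodule K (MvPolynomial ι K)} (h : S ≤ Sup K V)
    (h' : T ≤ Sup K V) : S * T ≤ Sup K V := by
  refine Submodule.mul_le.2 fun f hf g hg => ?_
  exact (supported K V).mul_mem (h hf) (h' hg)

theorem exists_rename {V : Set ι} {f : MvPolynomial ι K} (h : f ∈ Sup K V) :
    ∃ g : MvPolynomial V K, rename (Subtype.val : V → ι) g = f := by
  have h2 : f ∈ (rename (Subtype.val : V → ι) : MvPolynomial V K →ₐ[K] MvPolynomial ι K).range := by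
    rw [← supported_eq_range_rename]; exact h
  exact h2

/-- The substitution which only replaces the variables in `V`. -/
def Ps (K : Type) [Field K] (V : Set ι) (e : ι → (τ →₀ ℕ)) :
    MvPolynomial ι K →ₐ[K] MvPolynomial τ (MvPolynomial ι K) :=
  aeval fun u => if u ∈ V then monomial (e u) 1 else C (X u)

theorem Ps_of_mem {V : Set ι} {e : ι → (τ →₀ ℕ)} {g : MvPolynomial ι K} (h : g ∈ Sup K V) :
    Ps K V e g = map C (Th K e g) := by
  obtain ⟨g', rfl⟩ := exists_rename h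
  have h2 : (Ps K V e).comp (rename (Subtype.val : V → ι)) =
      ((mapAlgHom (Algebra.ofId K (MvPolynomial ι K))).comp (Th K e)).comp
        (rename (Subtype.val : V → ι)) := by
    apply MvPolynomial.algHom_ext
    intro u
    simp [Ps, Th, map_monomial]
  have h3 := DFunLike.congr_fun h2 g'
  simpa using h3

theorem Ps_of_mem_compl {V : Set ι} {e : ι → (τ →₀ ℕ)} {g : MvPolynomial ι K}
    (h : g ∈ Sup K Vᶜ) : Ps K V e g = C g := by
  obtain ⟨g', rfl⟩ := exists_rename h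
  have h2 : (Ps K V e).comp (rename (Subtype.val : (Vᶜ : Set ι) → ι)) =
      (IsScalarTower.toAlgHom K (MvPolynomial ι K) (MvPolynomial τ (MvPolynomial ι K))).comp
        (rename (Subtype.val : (Vᶜ : Set ι) → ι)) := by
    apply MvPolynomial.algHom_ext
    rintro ⟨u, hu⟩
    have hu' : u ∉ V := hu
    simp [Ps, hu', MvPolynomial.algebraMap_eq]
  have h3 := DFunLike.congr_fun h2 g'
  simpa [MvPolynomial.algebraMap_eq] using h3

/-- Slices. -/
def sl (V : Set ι) (e : ι → (τ →₀ ℕ)) (b : τ →₀ ℕ) (f : MvPolynomial ι K) : MvPolynomial ι K :=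
  coeff b (Ps K V e f)

theorem sl_add (V : Set ι) (e : ι → (τ →₀ ℕ)) (b : τ →₀ ℕ) (f g : MvPolynomial ι K) :
    sl V e b (f + g) = sl V e b f + sl V e b g := by
  simp [sl]

theorem sl_mul {V : Set ι} {e : ι → (τ →₀ ℕ)} {b : τ →₀ ℕ} {g h : MvPolynomial ι K}
    (hg : g ∈ Sup K V) (hh : h ∈ Sup K Vᶜ) :
    sl V e b (g * h) = (coeff b (Th K e g)) • h := by
  rw [sl, map_mul, Ps_of_mem hg, Ps_of_mem_compl hh, mul_comm, coeff_C_mul, coeff_map, mul_comm,
    ← MvPolynomial.C_mul']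

/-- The product space of two spaces in disjoint sets of variables: slices. -/
theorem sl_mem_right {U₁ U₂ : Set ι} (hd : Disjoint U₁ U₂) {S₁ S₂ : Submodule K (MvPolynomial ι K)}
    (h₁ : S₁ ≤ Sup K U₁) (h₂ : S₂ ≤ Sup K U₂) {f : MvPolynomial ι K} (hf : f ∈ S₁ * S₂)
    (e : ι → (τ →₀ ℕ)) (b : τ →₀ ℕ) : sl U₁ e b f ∈ S₂ := by
  induction hf using Submodule.mul_induction_on' with
  | mem_mul_mem g hg h hh =>
    rw [sl_mul (h₁ hg) (Sup_mono (hd.symm.subset_compl_right) (h₂ hh))]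
    exact S₂.smul_mem _ hh
  | add x _ y _ hx hy =>
    rw [sl_add]; exact S₂.add_mem hx hy

theorem sl_mem_left {U₁ U₂ : Set ι} (hd : Disjoint U₁ U₂) {S₁ S₂ : Submodule K (MvPolynomial ι K)}
    (h₁ : S₁ ≤ Sup K U₁) (h₂ : S₂ ≤ Sup K U₂) {f : MvPolynomial ι K} (hf : f ∈ S₁ * S₂)
    (e : ι → (τ →₀ ℕ)) (b : τ →₀ ℕ) : sl U₂ e b f ∈ S₁ :=
  sl_mem_right hd.symm h₂ h₁ (by rwa [mul_comm]) e b

theorem sl_swap {U₁ U₂ : Set ι} (hd : Disjoint U₁ U₂) {S₁ S₂ : Submodule K (MvPolynomial ι K)}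
    (h₁ : S₁ ≤ Sup K U₁) (h₂ : S₂ ≤ Sup K U₂) {f : MvPolynomial ι K} (hf : f ∈ S₁ * S₂)
    (e₁ : ι → (τ →₀ ℕ)) (e₂ : ι → (τ' →₀ ℕ)) (a : τ →₀ ℕ) (b : τ' →₀ ℕ) :
    coeff a (Th K e₁ (sl U₂ e₂ b f)) = coeff b (Th K e₂ (sl U₁ e₁ a f)) := by
  induction hf using Submodule.mul_induction_on' with
  | mem_mul_mem g hg h hh =>
    rw [sl_mul (h₁ hg) (Sup_mono (hd.symm.subset_compl_right) (h₂ hh)), mul_comm g h,
      sl_mul (h₂ hh) (Sup_mono (hd.subset_compl_right) (h₁ hg)), map_smul, map_smul, coeff_smul,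
      coeff_smul, smul_eq_mul, smul_eq_mul, mul_comm]
  | add x _ y _ hx hy =>
    rw [sl_add, sl_add, map_add, map_add, coeff_add, coeff_add, hx, hy]

theorem Ps_single_injective (V : Set ι) {f : MvPolynomial ι K}
    (h : ∀ d, sl V (fun u => Finsupp.single u 1) d f = 0) : f = 0 := by
  have h1 : Ps K V (fun u : ι => Finsupp.single u 1) f = 0 := by
    ext1 d
    simpa [sl] using h d
  have h2 : ((aeval (R := MvPolynomial ι K) (fun u : ι => (X u : MvPolynomial ι K))).toRingHom.comp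
      (Ps K V (fun u : ι => Finsupp.single u 1)).toRingHom) = RingHom.id _ := by
    apply MvPolynomial.ringHom_ext
    · intro r
      simp [Ps, MvPolynomial.algebraMap_eq]
    · intro u
      simp only [Ps, AlgHom.toRingHom_eq_coe, RingHom.coe_comp, RingHom.coe_coe,
        Function.comp_apply, aeval_X, RingHom.id_apply]
      split_ifs
      · rw [aeval_monomial]; simp
      · simp
  have h3 := DFunLike.congr_fun h2 f
  simpa [h1] using h3.symm

/-- The support of the image of a product under two substitutions is not empty. -/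
theorem exists_coeff_ne_zero {U₁ U₂ : Set ι} (hd : Disjoint U₁ U₂)
    {S₁ S₂ : Submodule K (MvPolynomial ι K)}
    (h₁ : S₁ ≤ Sup K U₁) (h₂ : S₂ ≤ Sup K U₂) {f : MvPolynomial ι K} (hf : f ∈ S₁ * S₂)
    (h0 : f ≠ 0) {e₁ : ι → (τ →₀ ℕ)} {e₂ : ι → (τ' →₀ ℕ)} (hg₁ : Good e₁ S₁) (hg₂ : Good e₂ S₂) :
    ∃ a b, coeff a (Th K e₁ (sl U₂ e₂ b f)) ≠ 0 := by
  by_contra hcon
  push Not at hcon
  apply h0
  have hz : ∀ b, sl U₂ e₂ b f = 0 := by
    intro b
    apply hg₁ _ (sl_mem_left hd h₁ h₂ hf e₂ b)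
    ext1 a
    simpa using hcon a b
  apply Ps_single_injective U₁
  intro d
  apply hg₂ _ (sl_mem_right hd h₁ h₂ hf _ d)
  ext1 b
  rw [← sl_swap hd h₁ h₂ hf (fun u => Finsupp.single u 1) e₂ d b, hz b]
  simp

end

end Pool.Agent.W945.Rk
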