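import Pool.Agent.W945.Rk.Merge

/-! # Merging: the tie-breaking coordinate -/

namespace Pool.Agent.W945.Rk
open MvPolynomial

noncomputable section
open scoped Classical

variable {ι : Type} {K : Type} [Field K]

/-- `a` is the smallest exponent of `F` in the lexicographic order. -/
def IsLd (F : MvPolynomial ℕ K) (a : ℕ →₀ ℕ) : Prop :=
  coeff a F ≠ 0 ∧ ∀ b, coeff b F ≠ 0 → toLex a ≤ toLex b

variable {p : ℕ} (lam : (ℕ →₀ ℕ) →+ ZMod p)

/-- twist -/
def tw (K : Type) [Field K] : MvPolynomial ℕ K →ₐ[K] MvPolynomial ℕ (AddMonoidAlgebra K (ZMod p)) :=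
  aeval fun i => monomial (Finsupp.single i 1) (AddMonoidAlgebra.single (lam (Finsupp.single i 1)) 1)

theorem tw_monomial_one (b : ℕ →₀ ℕ) :
    tw lam K (monomial b 1) = monomial b (AddMonoidAlgebra.single (lam b) 1) := by
  induction b using Finsupp.induction_linear with
  | zero => 
    have : (monomial (0 : ℕ →₀ ℕ) (1 : K)) = 1 := rfl
    rw [this, map_one, map_zero]; rfl
  | add a b ha hb =>
    have : (monomial (a + b) (1 : K)) = monomial a 1 * monomial b 1 := by
      rw [monomial_mul, one_mul]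
    rw [this, map_mul, ha, hb, monomial_mul, map_add, AddMonoidAlgebra.single_mul_single, one_mul]
  | single i k =>
    have : (monomial (Finsupp.single i k) (1 : K)) = (X i) ^ k := by
      rw [X_pow_eq_monomial]
    rw [this, map_pow, tw, aeval_X, monomial_pow, AddMonoidAlgebra.single_pow, one_pow]
    congr 1
    · simp
    · congr 1
      rw [← map_nsmul]; simp

theorem tw_monomial (b : ℕ →₀ ℕ) (c : K) :
    tw lam K (monomial b c) = monomial b (AddMonoidAlgebra.single (lam b) c) := by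
  have : monomial b c = c • monomial b (1 : K) := by rw [smul_monomial]; simp
  rw [this, map_smul, tw_monomial_one, smul_monomial]
  congr 1
  rw [AddMonoidAlgebra.smul_single]; simp

theorem coeff_tw (F : MvPolynomial ℕ K) (b : ℕ →₀ ℕ) :
    coeff b (tw lam K F) = AddMonoidAlgebra.single (lam b) (coeff b F) := by
  induction F using MvPolynomial.induction_on' with
  | monomial a c =>
    rw [tw_monomial, coeff_monomial, coeff_monomial]
    split_ifs with h
    · rw [h]
    · simp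
  | add f g hf hg =>
    rw [map_add, coeff_add, coeff_add, hf, hg, AddMonoidAlgebra.single_add]

/-- the substitution into the group algebra -/
def Om (K : Type) [Field K] (U₂ : Set ι) (e : ι → (ℕ →₀ ℕ)) :
    MvPolynomial ι K →ₐ[K] MvPolynomial ℕ (AddMonoidAlgebra K (ZMod p)) :=
  aeval fun u => monomial (e u) (if u ∈ U₂ then AddMonoidAlgebra.single (lam (e u)) 1 else 1)

/-- folding the coordinate `z` -/
def fo (K : Type) [Field K] (p z : ℕ) :
    MvPolynomial ℕ K →ₐ[K] MvPolynomial ℕ (AddMonoidAlgebra K (ZMod p)) :=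
  aeval fun i => if i = z then C (AddMonoidAlgebra.single 1 1) else X i

theorem fo_monomial_of_eq_zero {z : ℕ} {a : ℕ →₀ ℕ} (h : a z = 0) :
    fo K p z (monomial a 1) = monomial a 1 := by
  rw [fo, aeval_monomial, map_one, one_mul, monomial_eq (s := a), map_one, one_mul]
  apply Finsupp.prod_congr
  intro i hi
  have : i ≠ z := by
    rintro rfl
    simp [h] at hi
  simp [this]

theorem fo_single (z β : ℕ) :
    fo K p z (monomial (Finsupp.single z β) 1) = C (AddMonoidAlgebra.single (β : ZMod p) 1) := by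
  have : (monomial (Finsupp.single z β) (1 : K)) = (X z) ^ β := by
    rw [X_pow_eq_monomial]
  rw [this, map_pow, fo, aeval_X, if_pos rfl, ← C_pow, AddMonoidAlgebra.single_pow]
  simp

theorem Om_eq_fo {U₁ U₂ : Set ι} {e e' : ι → (ℕ →₀ ℕ)} {z : ℕ}
    (he₁ : ∀ u ∈ U₁, e' u = e u)
    (he₂ : ∀ u ∈ U₂, ∃ β : ℕ, e' u = e u + Finsupp.single z β ∧ (β : ZMod p) = lam (e u))
    (hz : ∀ u ∈ U₁ ∪ U₂, e u z = 0) {f : MvPolynomial ι K} (hf : f ∈ Sup K (U₁ ∪ U₂)) :
    Om lam K U₂ e f = fo K p z (Th K e' f) := by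
  obtain ⟨g', rfl⟩ := exists_rename hf
  have h2 : (Om lam K U₂ e).comp (rename (Subtype.val : (U₁ ∪ U₂ : Set ι) → ι)) =
      ((fo K p z).comp (Th K e')).comp (rename (Subtype.val : (U₁ ∪ U₂ : Set ι) → ι)) := by
    apply MvPolynomial.algHom_ext
    rintro ⟨u, hu⟩
    simp only [AlgHom.comp_apply, rename_X, Om, Th, aeval_X]
    by_cases h1 : u ∈ U₂
    · obtain ⟨β, hβ, hβ'⟩ := he₂ u h1
      have : (monomial (e u + Finsupp.single z β) (1 : K)) =
          monomial (e u) 1 * monomial (Finsupp.single z β) 1 := by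
        rw [monomial_mul, one_mul]
      rw [hβ, this, map_mul, fo_monomial_of_eq_zero (hz u hu), fo_single, if_pos h1, hβ',
        mul_comm, C_mul_monomial, mul_one]
    · have h3 : u ∈ U₁ := hu.resolve_right h1
      rw [he₁ u h3, fo_monomial_of_eq_zero (hz u hu), if_neg h1]
  have h3 := DFunLike.congr_fun h2 g'
  simpa using h3

theorem Om_left {U₁ U₂ : Set ι} (hd : Disjoint U₁ U₂) {e : ι → (ℕ →₀ ℕ)}
    {f : MvPolynomial ι K} (hf : f ∈ Sup K U₁) :
    Om lam K U₂ e f = map (algebraMap K _) (Th K e f) := by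
  obtain ⟨g', rfl⟩ := exists_rename hf
  have h2 : (Om lam K U₂ e).comp (rename (Subtype.val : U₁ → ι)) =
      ((mapAlgHom (Algebra.ofId K (AddMonoidAlgebra K (ZMod p)))).comp (Th K e)).comp
        (rename (Subtype.val : U₁ → ι)) := by
    apply MvPolynomial.algHom_ext
    rintro ⟨u, hu⟩
    have h1 : u ∉ U₂ := Set.disjoint_left.1 hd hu
    simp [Om, Th, map_monomial, h1, AddMonoidAlgebra.one_def]
  have h3 := DFunLike.congr_fun h2 g'
  simpa using h3

theorem Om_right {U₂ : Set ι} {e : ι → (ℕ →₀ ℕ)}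
    {f : MvPolynomial ι K} (hf : f ∈ Sup K U₂) :
    Om lam K U₂ e f = tw lam K (Th K e f) := by
  obtain ⟨g', rfl⟩ := exists_rename hf
  have h2 : (Om lam K U₂ e).comp (rename (Subtype.val : U₂ → ι)) =
      ((tw lam K).comp (Th K e)).comp (rename (Subtype.val : U₂ → ι)) := by
    apply MvPolynomial.algHom_ext
    rintro ⟨u, hu⟩
    simp only [AlgHom.comp_apply, rename_X, Om, Th, aeval_X, tw_monomial_one, if_pos hu]
  have h3 := DFunLike.congr_fun h2 g'
  simpa using h3

theorem coeff_Om {U₁ U₂ : Set ι} (hd : Disjoint U₁ U₂) {S₁ S₂ : Submodule K (MvPolynomial ι K)}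
    (h₁ : S₁ ≤ Sup K U₁) (h₂ : S₂ ≤ Sup K U₂) {f : MvPolynomial ι K} (hf : f ∈ S₁ * S₂)
    (e : ι → (ℕ →₀ ℕ)) (c : ℕ →₀ ℕ) :
    coeff c (Om lam K U₂ e f) = ∑ x ∈ Finset.HasAntidiagonal.antidiagonal c,
      AddMonoidAlgebra.single (lam x.2) (coeff x.1 (Th K e (sl U₂ e x.2 f))) := by
  induction hf using Submodule.mul_induction_on' with
  | mem_mul_mem g hg h hh =>
    rw [map_mul, coeff_mul]
    refine Finset.sum_congr rfl fun x _ => ?_
    rw [Om_left lam hd (h₁ hg), Om_right lam (h₂ hh), coeff_map, coeff_tw, mul_comm g h,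
      sl_mul (h₂ hh) (Sup_mono (hd.subset_compl_right) (h₁ hg)), map_smul, coeff_smul,
      smul_eq_mul, ← Algebra.smul_def, AddMonoidAlgebra.smul_single, smul_eq_mul, mul_comm]
  | add x _ y _ hx hy =>
    rw [map_add, coeff_add, hx, hy, ← Finset.sum_add_distrib]
    refine Finset.sum_congr rfl fun x _ => ?_
    rw [sl_add, map_add, coeff_add, AddMonoidAlgebra.single_add]

/-- **Merging.** -/
theorem Good.merge {U₁ U₂ : Set ι} (hd : Disjoint U₁ U₂) {S₁ S₂ : Submodule K (MvPolynomial ι K)}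
    (h₁ : S₁ ≤ Sup K U₁) (h₂ : S₂ ≤ Sup K U₂) {e e' : ι → (ℕ →₀ ℕ)} {z : ℕ}
    (hg₁ : Good e S₁) (hg₂ : Good e S₂)
    (he₁ : ∀ u ∈ U₁, e' u = e u)
    (he₂ : ∀ u ∈ U₂, ∃ β : ℕ, e' u = e u + Finsupp.single z β ∧ (β : ZMod p) = lam (e u))
    (hz : ∀ u ∈ U₁ ∪ U₂, e u z = 0)
    {B : Set (ℕ →₀ ℕ)} (hB : ∀ g ∈ S₂, ∀ b, IsLd (Th K e g) b → b ∈ B)
    (hsep : ∀ a ∈ B, ∀ b ∈ B, lam a = lam b → a = b) : Good e' (S₁ * S₂) := by
  intro f hf h0
  by_contra hne
  obtain ⟨a0, b0, hab⟩ := exists_coeff_ne_zero hd h₁ h₂ hf hne hg₁ hg₂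
  set Z : Finset ((ℕ →₀ ℕ) × (ℕ →₀ ℕ)) := (Ps K U₂ e f).support.biUnion fun b =>
    (Th K e (sl U₂ e b f)).support.image fun a => (a, b) with hZ
  have hmemZ : ∀ a b, coeff a (Th K e (sl U₂ e b f)) ≠ 0 ↔ (a, b) ∈ Z := by
    intro a b
    simp only [hZ, Finset.mem_biUnion, Finset.mem_image, Prod.mk.injEq, mem_support_iff]
    constructor
    · intro h
      refine ⟨b, ?_, a, h, rfl, rfl⟩
      intro h3
      apply h
      have : sl U₂ e b f = 0 := h3
      rw [this]; simp
    · rintro ⟨b', _, a', h, rfl, rfl⟩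
      exact h
  obtain ⟨⟨a, b⟩, habZ, hmin⟩ := Finset.exists_min_image Z (fun x => toLex (x.1 + x.2))
    ⟨(a0, b0), (hmemZ _ _).1 hab⟩
  have hmin' : ∀ a' b', coeff a' (Th K e (sl U₂ e b' f)) ≠ 0 → toLex (a + b) ≤ toLex (a' + b') :=
    fun a' b' h => hmin (a', b') ((hmemZ _ _).1 h)
  have hBall : ∀ a' b', coeff a' (Th K e (sl U₂ e b' f)) ≠ 0 → a' + b' = a + b → b' ∈ B := by
    intro a' b' h h3
    apply hB _ (sl_mem_right hd h₁ h₂ hf e a') b'
    refine ⟨by rwa [← sl_swap hd h₁ h₂ hf e e a' b'], fun b'' hb'' => ?_⟩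
    rw [← sl_swap hd h₁ h₂ hf e e a' b''] at hb''
    have h4 := hmin' _ _ hb''
    rw [← h3, toLex_add, toLex_add] at h4
    exact le_of_add_le_add_left h4
  have hab0 : coeff a (Th K e (sl U₂ e b f)) ≠ 0 := (hmemZ _ _).2 habZ
  have hOm : Om lam K U₂ e f = 0 := by
    have hfS : f ∈ Sup K (U₁ ∪ U₂) :=
      Sup_mul (h₁.trans (Sup_mono Set.subset_union_left)) (h₂.trans (Sup_mono Set.subset_union_right)) hf
    rw [Om_eq_fo lam he₁ he₂ hz hfS, h0, map_zero]
  have hc := coeff_Om lam hd h₁ h₂ hf e (a + b)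
  rw [hOm, coeff_zero] at hc
  have hc2 := congrArg (fun F : AddMonoidAlgebra K (ZMod p) => F.coeff (lam b)) hc
  simp only [AddMonoidAlgebra.coeff_zero, Finsupp.coe_zero, Pi.zero_apply] at hc2
  rw [AddMonoidAlgebra.coeff_sum, Finsupp.finsetSum_apply] at hc2
  rw [Finset.sum_eq_single (a, b)] at hc2
  · apply hab0
    simpa using hc2.symm
  · rintro ⟨a', b'⟩ hx hx2
    rw [Finset.HasAntidiagonal.mem_antidiagonal] at hx
    simp only at hx ⊢
    rw [AddMonoidAlgebra.coeff_single, Finsupp.single_apply]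
    split_ifs with h3
    · by_contra h4
      have hb' := hBall a' b' h4 hx
      have hbB := hBall a b hab0 rfl
      have := hsep b' hb' b hbB h3
      subst this
      apply hx2
      have : a' = a := by simpa using hx
      rw [this]
    · rfl
  · intro h
    rw [Finset.HasAntidiagonal.mem_antidiagonal] at h
    exact absurd (show (a, b).1 + (a, b).2 = a + b from rfl) h

end

end Pool.Agent.W945.Rk
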