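import Pool.Agent.W945.Rk.Merge2

/-! # Two substitutions one after the other -/

namespace Pool.Agent.W945.Rk
open MvPolynomial

noncomputable section
open scoped Classical

variable {ι : Type} {K : Type} [Field K]

/-- Change of the field of constants; the variables outside `V` get the values `y`. -/
def bc (V : Set ι) {F : Type} [Field F] (j : K →+* F) (y : ι → F) :
    MvPolynomial ι K →+* MvPolynomial ι F :=
  eval₂Hom (C.comp j) (fun u => if u ∈ V then X u else C (y u))

/-- the field for the first phase: the variables outside `V` are constants -/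
abbrev F1 (ι K : Type) [Field K] : Type := FractionRing (MvPolynomial ι K)

/-- the first change of constants -/
abbrev bc1 (V : Set ι) : MvPolynomial ι K →+* MvPolynomial ι (F1 ι K) :=
  bc V ((algebraMap (MvPolynomial ι K) (F1 ι K)).comp C)
    (fun u => algebraMap (MvPolynomial ι K) (F1 ι K) (X u))

/-- the second change of constants -/
abbrev bc2 (V : Set ι) (e : ι → (ℕ →₀ ℕ)) : MvPolynomial ι K →+* MvPolynomial ι (F1 ℕ K) :=
  bc Vᶜ ((algebraMap (MvPolynomial ℕ K) (F1 ℕ K)).comp C)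
    (fun u => algebraMap (MvPolynomial ℕ K) (F1 ℕ K) (monomial (e u) 1))

theorem bc1_injective (V : Set ι) : Function.Injective (bc1 (K := K) V) := by
  have h2 : ((eval₂Hom (RingHom.id (F1 ι K)) (fun u : ι => algebraMap (MvPolynomial ι K) _ (X u))).comp
      (bc1 V)) = algebraMap (MvPolynomial ι K) (F1 ι K) := by
    apply MvPolynomial.ringHom_ext
    · intro r
      simp [bc]
    · intro u
      simp only [bc, RingHom.comp_apply, coe_eval₂Hom, eval₂_X]
      split_ifs <;> simp
  intro f g hfg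
  have h3 := DFunLike.congr_fun h2 f
  have h4 := DFunLike.congr_fun h2 g
  rw [RingHom.comp_apply] at h3 h4
  rw [hfg, h4] at h3
  exact (IsFractionRing.injective (MvPolynomial ι K) (F1 ι K) h3).symm

theorem Th_bc1 (V : Set ι) (e : ι → (ℕ →₀ ℕ)) (f : MvPolynomial ι K) :
    map (algebraMap (MvPolynomial ι K) (F1 ι K)) (Ps K V e f) = Th (F1 ι K) e (bc1 V f) := by
  have h2 : (map (algebraMap (MvPolynomial ι K) (F1 ι K))).comp (Ps K V e).toRingHom =
      (Th (F1 ι K) e).toRingHom.comp (bc1 V) := by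
    apply MvPolynomial.ringHom_ext
    · intro r
      simp [bc, Ps, Th, MvPolynomial.algebraMap_eq]
    · intro u
      simp only [bc, Ps, Th, RingHom.comp_apply, coe_eval₂Hom, eval₂_X, AlgHom.toRingHom_eq_coe,
        RingHom.coe_coe, aeval_X]
      split_ifs
      · simp [map_monomial]
      · simp
  exact DFunLike.congr_fun h2 f

theorem comm_monomial (a : ℕ →₀ ℕ) :
    (commAlgEquiv K ℕ ι) (monomial a 1) = C (monomial a 1) := by
  induction a using Finsupp.induction_linear with
  | zero =>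
    have h1 : (monomial (0 : ℕ →₀ ℕ) (1 : MvPolynomial ι K)) = 1 := rfl
    have h2 : (monomial (0 : ℕ →₀ ℕ) (1 : K)) = 1 := rfl
    rw [h1, h2, map_one, C_1]
  | add a b ha hb =>
    have h1 : (monomial (a + b) (1 : MvPolynomial ι K)) = monomial a 1 * monomial b 1 := by
      rw [monomial_mul, one_mul]
    have h2 : (monomial (a + b) (1 : K)) = monomial a 1 * monomial b 1 := by
      rw [monomial_mul, one_mul]
    rw [h1, h2, map_mul, ha, hb, C_mul]
  | single i k =>
    have h1 : (monomial (Finsupp.single i k) (1 : MvPolynomial ι K)) = (X i) ^ k := by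
      rw [X_pow_eq_monomial]
    have h2 : (monomial (Finsupp.single i k) (1 : K)) = (X i) ^ k := by
      rw [X_pow_eq_monomial]
    rw [h1, h2, map_pow, commAlgEquiv_X, C_pow]

theorem bc2_eq (V : Set ι) (e : ι → (ℕ →₀ ℕ)) (f : MvPolynomial ι K) :
    bc2 V e f = map (algebraMap (MvPolynomial ℕ K) (F1 ℕ K))
      (commAlgEquiv K ℕ ι (Ps K V e f)) := by
  have h2 : bc2 V e = ((map (algebraMap (MvPolynomial ℕ K) (F1 ℕ K))).comp
      (commAlgEquiv K ℕ ι).toAlgHom.toRingHom).comp (Ps K V e).toRingHom := by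
    apply MvPolynomial.ringHom_ext
    · intro r
      simp [bc, Ps, MvPolynomial.algebraMap_eq]
    · intro u
      simp only [bc, Ps, RingHom.comp_apply, coe_eval₂Hom, eval₂_X, AlgHom.toRingHom_eq_coe,
        RingHom.coe_coe, aeval_X, Set.mem_compl_iff]
      by_cases hu : u ∈ V
      · simp only [hu, not_true_eq_false, if_false, if_true]
        have h3 : (commAlgEquiv K ℕ ι) (monomial (e u) 1) = C (monomial (e u) 1) := by
          exact comm_monomial _
        have h4 : (commAlgEquiv K ℕ ι).toAlgHom (monomial (e u) 1) =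
          commAlgEquiv K ℕ ι (monomial (e u) 1) := rfl
        rw [h4, h3, map_C]
      · simp only [hu, not_false_eq_true, if_true, if_false]
        have h4 : (commAlgEquiv K ℕ ι).toAlgHom (C (X u)) = commAlgEquiv K ℕ ι (C (X u)) := rfl
        rw [h4]
        simp
  exact DFunLike.congr_fun h2 f

theorem Ps_eq_zero_of_bc2 {V : Set ι} {e : ι → (ℕ →₀ ℕ)} {f : MvPolynomial ι K}
    (h : bc2 V e f = 0) : Ps K V e f = 0 := by
  rw [bc2_eq] at h
  have h1 : Function.Injective (map (σ := ι) (algebraMap (MvPolynomial ℕ K) (F1 ℕ K))) :=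
    map_injective _ (IsFractionRing.injective _ _)
  have h2 := h1 (h.trans (map_zero _).symm)
  simpa using h2

/-- The combination of the two substitutions. -/
theorem Th_combine {V : Set ι} {e₁ e₂ e : ι → (ℕ →₀ ℕ)} {T : ℕ}
    (h₁ : ∀ u i, T ≤ i → e₁ u i = 0) (h₁' : ∀ u, u ∉ V → e₁ u = 0) (h₂ : ∀ u ∈ V, e₂ u = 0)
    (he : ∀ u, e u = e₁ u + (e₂ u).mapDomain (· + T)) {f : MvPolynomial ι K}
    (h : Th K e f = 0) : Th (F1 ℕ K) e₂ (bc2 V e₁ f) = 0 := by
  set ω : MvPolynomial ℕ K →+* MvPolynomial ℕ (F1 ℕ K) :=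
    eval₂Hom (C.comp ((algebraMap (MvPolynomial ℕ K) (F1 ℕ K)).comp C))
      (fun i => if i < T then C (algebraMap (MvPolynomial ℕ K) (F1 ℕ K) (X i)) else X (i - T)) with hω
  have hA : ∀ a : ℕ →₀ ℕ, (∀ i, T ≤ i → a i = 0) →
      ω (monomial a 1) = C (algebraMap (MvPolynomial ℕ K) (F1 ℕ K) (monomial a 1)) := by
    intro a ha
    rw [hω, coe_eval₂Hom, eval₂_monomial, map_one, one_mul, monomial_eq (s := a), map_one,
      one_mul, Finsupp.prod, Finsupp.prod, map_prod, map_prod]
    refine Finset.prod_congr rfl fun i hi => ?_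
    have : i < T := by
      by_contra hc
      exact (Finsupp.mem_support_iff.1 hi) (ha i (not_lt.1 hc))
    simp [this]
  have hB : ∀ a : ℕ →₀ ℕ, ω (monomial (a.mapDomain (· + T)) 1) = monomial a 1 := by
    intro a
    rw [hω, coe_eval₂Hom, eval₂_monomial, map_one, one_mul, monomial_eq (s := a), map_one,
      one_mul, Finsupp.prod_mapDomain_index_inj (add_left_injective T)]
    apply Finsupp.prod_congr
    intro i hi
    simp
  have h2 : ω.comp (Th K e).toRingHom = (Th (F1 ℕ K) e₂).toRingHom.comp (bc2 V e₁) := by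
    apply MvPolynomial.ringHom_ext
    · intro r
      simp [bc, Th, MvPolynomial.algebraMap_eq, hω]
    · intro u
      simp only [bc, Th, RingHom.comp_apply, coe_eval₂Hom, eval₂_X, AlgHom.toRingHom_eq_coe,
        RingHom.coe_coe, aeval_X, Set.mem_compl_iff]
      have h3 : (monomial (e u) (1 : K)) =
          monomial (e₁ u) 1 * monomial ((e₂ u).mapDomain (· + T)) 1 := by
        rw [monomial_mul, one_mul, he]
      rw [h3, map_mul, hB, hA _ (h₁ u)]
      by_cases hu : u ∈ V
      · simp only [hu, not_true_eq_false, if_false]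
        rw [h₂ u hu]
        simp [MvPolynomial.algebraMap_eq]
      · simp only [hu, not_false_eq_true, if_true]
        rw [h₁' u hu]
        simp
  have h3 := DFunLike.congr_fun h2 f
  have h4 : (Th (F1 ℕ K) e₂) (bc2 V e₁ f) = ω (Th K e f) := h3.symm
  rw [h4, h, map_zero]

/-- **Rounds.** -/
theorem Good.rounds {V : Set ι} {e₁ e₂ e : ι → (ℕ →₀ ℕ)} {T : ℕ}
    (h₁ : ∀ u i, T ≤ i → e₁ u i = 0) (h₁' : ∀ u, u ∉ V → e₁ u = 0) (h₂ : ∀ u ∈ V, e₂ u = 0)
    (he : ∀ u, e u = e₁ u + (e₂ u).mapDomain (· + T))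
    {S : Submodule K (MvPolynomial ι K)} {S₁ : Submodule (F1 ι K) (MvPolynomial ι (F1 ι K))}
    {S₂ : Submodule (F1 ℕ K) (MvPolynomial ι (F1 ℕ K))}
    (hS₁ : ∀ f ∈ S, bc1 V f ∈ S₁) (hS₂ : ∀ f ∈ S, bc2 V e₁ f ∈ S₂)
    (hg₁ : Good e₁ S₁) (hg₂ : Good e₂ S₂) : Good e S := by
  intro f hf h0
  have h2 := hg₂ _ (hS₂ f hf) (Th_combine h₁ h₁' h₂ he h0)
  have h3 := Ps_eq_zero_of_bc2 h2
  have h4 := Th_bc1 V e₁ f
  rw [h3, map_zero] at h4
  have h5 := hg₁ _ (hS₁ f hf) h4.symm
  exact bc1_injective V (h5.trans (map_zero _).symm)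

end

end Pool.Agent.W945.Rk
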